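import Mathlib
import Pool.Agent.Helper62.OB.Defs

/-!
# OB-BU: Burau matrices of runs

* `burau_rn`: induction on `r`; `rn m 0 (r + 1) = sg m r * rn m 0 r`; the product with the matrix `bmat m (T 1) ⟨r, _⟩` on the left changes the rows `r` and `r + 1`:
  new row `r` = `(1 - T 1) (row r) + T 1 (row (r + 1))`, new row `r + 1` = old row `r`.
* `burau_pow`: `M = burau m (rn m 0 m)` has the entries `(1 - T 1) [j = 0] + T 1 [j = (i + 1) % (m + 1)]`.  Induction on `t`: row `i` of `M^t * M` is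
  `T t (row ((i + t) % (m + 1)) of M) + ∑ j, g j (row j of M)`, so `g' = T t (1 - T 1) e_0 + g M`, and `∑ g' = T t (1 - T 1) + (1 - T t) = 1 - T (t + 1)` as `M` has row sums `1`.
* `burau_row_sum`, `burau_null`: true for the matrix of every generator (`brow m i ⬝ᵥ 1 = 0` and `(T^0, ..., T^m) ⬝ᵥ bcol m (T 1) i = 0`) and stable under
  products; `oneBridge m b t` is a product of generators.
-/

set_option autoImplicit false

namespace Pool.Agent.Helper62.OB

open Polynomial LaurentPolynomial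

theorem burauRn_sigma (m : ℕ) (i : Fin m) :
    (burau m (sigma i) : Matrix (Fin (m + 1)) (Fin (m + 1)) ℤ[T;T⁻¹]) = bmat m (T 1) i := by
  unfold burau
  rw [braidLift_sigma]

theorem burauRn_sg (m r : ℕ) (hr : r < m) :
    (burau m (sg m r) : Matrix (Fin (m + 1)) (Fin (m + 1)) ℤ[T;T⁻¹]) = bmat m (T 1) ⟨r, hr⟩ := by
  unfold sg
  rw [dif_pos hr, burauRn_sigma]

theorem burauRn_mul_apply {R : Type*} [CommRing R] (m : ℕ) (t : R) (i : Fin m)
    (M : Matrix (Fin (m + 1)) (Fin (m + 1)) R) (a j : Fin (m + 1)) :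
    (bmat m t i * M) a j = M a j + bcol m t i a * (M i.castSucc j - M i.succ j) := by
  unfold bmat
  rw [add_mul, one_mul, Matrix.add_apply, Matrix.vecMulVec_mul, Matrix.vecMulVec_apply]
  congr 2
  exact brow_dot m i fun k => M k j

theorem burau_rn (m r : ℕ) (hr : r ≤ m) (i j : Fin (m + 1)) :
    (burau m (rn m 0 r) : Matrix (Fin (m + 1)) (Fin (m + 1)) ℤ[T;T⁻¹]) i j =
      if i.val < r then (1 - T 1) * (if j = 0 then 1 else 0) + T 1 *
        (if j.val = i.val + 1 then 1 else 0)
      else if i.val = r then (if j = 0 then 1 else 0) else (if i = j then 1 else 0) := by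
  induction r generalizing i with
  | zero =>
    rw [if_neg (Nat.not_lt_zero _)]
    have h1 : (burau m (rn m 0 0) : Matrix (Fin (m + 1)) (Fin (m + 1)) ℤ[T;T⁻¹]) = 1 := by
      change ((burau m 1 : (Matrix (Fin (m + 1)) (Fin (m + 1)) ℤ[T;T⁻¹])ˣ) :
        Matrix (Fin (m + 1)) (Fin (m + 1)) ℤ[T;T⁻¹]) = 1
      rw [map_one, Units.val_one]
    rw [h1, Matrix.one_apply]
    by_cases h : i.val = 0
    · have h2 : i = 0 := Fin.ext h
      rw [if_pos h, h2]
      by_cases h3 : j = 0
      · rw [h3]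
      · rw [if_neg h3, if_neg (Ne.symm h3)]
    · rw [if_neg h]
  | succ r ih =>
    have hr' : r < m := hr
    have h1 : (burau m (rn m 0 (r + 1)) : Matrix (Fin (m + 1)) (Fin (m + 1)) ℤ[T;T⁻¹]) =
        bmat m (T 1) ⟨r, hr'⟩ * (burau m (rn m 0 r) :
          Matrix (Fin (m + 1)) (Fin (m + 1)) ℤ[T;T⁻¹]) := by
      have h2 : rn m 0 (r + 1) = sg m r * rn m 0 r := by
        change sg m (0 + r) * rn m 0 r = _
        rw [zero_add]
      rw [h2, map_mul, Units.val_mul, burauRn_sg m r hr']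
    have e1 : (⟨r, hr'⟩ : Fin m).castSucc.val = r := rfl
    have e2 : (⟨r, hr'⟩ : Fin m).succ.val = r + 1 := rfl
    rw [h1, burauRn_mul_apply, ih (by omega), ih (by omega), ih (by omega), e1, e2]
    rw [if_neg (lt_irrefl r), if_pos (rfl : r = r), if_neg (show ¬ r + 1 < r by omega),
      if_neg (show ¬ r + 1 = r by omega)]
    have e3 : ((⟨r, hr'⟩ : Fin m).succ = j) ↔ j.val = r + 1 := by
      rw [Fin.ext_iff, e2]
      exact eq_comm
    unfold bcol
    rcases lt_trichotomy i.val r with h | h | h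
    · have n1 : i ≠ (⟨r, hr'⟩ : Fin m).castSucc := by
        intro h3; rw [h3] at h; exact lt_irrefl r h
      have n2 : i ≠ (⟨r, hr'⟩ : Fin m).succ := by
        intro h3; rw [h3, e2] at h; omega
      rw [if_neg n1, if_neg n2, zero_mul, add_zero, if_pos h, if_pos (show i.val < r + 1 by omega)]
    · have n1 : i = (⟨r, hr'⟩ : Fin m).castSucc := Fin.ext h
      rw [if_pos n1, if_neg (show ¬ i.val < r by omega), if_pos h,
        if_pos (show i.val < r + 1 by omega), h]
      simp only [e3]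
      ring
    · by_cases h2 : i.val = r + 1
      · have n1 : i ≠ (⟨r, hr'⟩ : Fin m).castSucc := by
          intro h3; rw [h3] at h; exact lt_irrefl r h
        have n2 : i = (⟨r, hr'⟩ : Fin m).succ := Fin.ext h2
        rw [if_neg n1, if_pos n2, if_neg (show ¬ i.val < r by omega),
          if_neg (show ¬ i.val = r by omega), if_neg (show ¬ i.val < r + 1 by omega), if_pos h2, n2]
        ring
      · have n1 : i ≠ (⟨r, hr'⟩ : Fin m).castSucc := by
          intro h3; rw [h3] at h; exact lt_irrefl r h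
        have n2 : i ≠ (⟨r, hr'⟩ : Fin m).succ := by
          intro h3; exact h2 (by rw [h3, e2])
        rw [if_neg n1, if_neg n2, zero_mul, add_zero, if_neg (show ¬ i.val < r by omega),
          if_neg (show ¬ i.val = r by omega), if_neg (show ¬ i.val < r + 1 by omega), if_neg h2]

theorem burauRn_full (m : ℕ) (k j : Fin (m + 1)) :
    (burau m (rn m 0 m) : Matrix (Fin (m + 1)) (Fin (m + 1)) ℤ[T;T⁻¹]) k j =
      (1 - T 1) * (if j = 0 then 1 else 0) + T 1 *
        (if j.val = (k.val + 1) % (m + 1) then 1 else 0) := by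
  rw [burau_rn m m le_rfl]
  by_cases h : k.val < m
  · rw [if_pos h, Nat.mod_eq_of_lt (by omega)]
  · have h1 : k.val = m := by omega
    rw [if_neg h, if_pos h1, h1, Nat.mod_self]
    have h2 : (j.val = 0) ↔ j = 0 := by
      rw [Fin.ext_iff]; rfl
    simp only [h2]
    ring

/-- row sums -/
theorem burauRn_row (m : ℕ) : ∀ r, r ≤ m →
    (burau m (rn m 0 r) : Matrix (Fin (m + 1)) (Fin (m + 1)) ℤ[T;T⁻¹]).mulVec (fun _ => 1) =
      fun _ => 1 := by
  intro r
  induction r with
  | zero =>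
    intro _
    change ((burau m 1 : (Matrix (Fin (m + 1)) (Fin (m + 1)) ℤ[T;T⁻¹])ˣ) :
        Matrix (Fin (m + 1)) (Fin (m + 1)) ℤ[T;T⁻¹]).mulVec (fun _ => 1) = _
    rw [map_one, Units.val_one, Matrix.one_mulVec]
  | succ r ih =>
    intro hr
    have hr' : r < m := hr
    have h2 : rn m 0 (r + 1) = sg m r * rn m 0 r := by
      change sg m (0 + r) * rn m 0 r = _
      rw [zero_add]
    rw [h2, map_mul, Units.val_mul, ← Matrix.mulVec_mulVec, ih (by omega), burauRn_sg m r hr']
    unfold bmat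
    rw [Matrix.add_mulVec, Matrix.one_mulVec]
    have h3 : (Matrix.vecMulVec (bcol m (T 1 : ℤ[T;T⁻¹]) ⟨r, hr'⟩) (brow m ⟨r, hr'⟩)).mulVec
        (fun _ => 1) = 0 := by
      funext a
      rw [Matrix.vecMulVec_mulVec]
      simp [brow_dot]
    rw [h3, add_zero]

theorem burauRn_null (m : ℕ) : ∀ r, r ≤ m →
    Matrix.vecMul (fun i : Fin (m + 1) => T (i.val : ℤ))
      (burau m (rn m 0 r) : Matrix (Fin (m + 1)) (Fin (m + 1)) ℤ[T;T⁻¹]) =
      fun i : Fin (m + 1) => T (i.val : ℤ) := by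
  intro r
  induction r with
  | zero =>
    intro _
    change Matrix.vecMul _ ((burau m 1 : (Matrix (Fin (m + 1)) (Fin (m + 1)) ℤ[T;T⁻¹])ˣ) :
        Matrix (Fin (m + 1)) (Fin (m + 1)) ℤ[T;T⁻¹]) = _
    rw [map_one, Units.val_one, Matrix.vecMul_one]
  | succ r ih =>
    intro hr
    have hr' : r < m := hr
    have h2 : rn m 0 (r + 1) = sg m r * rn m 0 r := by
      change sg m (0 + r) * rn m 0 r = _
      rw [zero_add]
    rw [h2, map_mul, Units.val_mul, ← Matrix.vecMul_vecMul, burauRn_sg m r hr']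
    have h3 : Matrix.vecMul (fun i : Fin (m + 1) => T (i.val : ℤ))
        (bmat m (T 1 : ℤ[T;T⁻¹]) ⟨r, hr'⟩) = fun i : Fin (m + 1) => T (i.val : ℤ) := by
      unfold bmat
      rw [Matrix.vecMul_add, Matrix.vecMul_one]
      have h4 : (fun i : Fin (m + 1) => (T (i.val : ℤ) : ℤ[T;T⁻¹])) ⬝ᵥ
          bcol m (T 1) ⟨r, hr'⟩ = 0 := by
        have n1 : (⟨r, hr'⟩ : Fin m).succ ≠ (⟨r, hr'⟩ : Fin m).castSucc := by
          intro h1
          have := congrArg Fin.val h1
          simp at this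
        have h5 : (bcol m (T 1 : ℤ[T;T⁻¹]) ⟨r, hr'⟩) =
            Pi.single (⟨r, hr'⟩ : Fin m).castSucc (-T 1) +
              Pi.single (⟨r, hr'⟩ : Fin m).succ 1 := by
          funext a
          rw [Pi.add_apply, Pi.single_apply, Pi.single_apply, bcol]
          by_cases h1 : a = (⟨r, hr'⟩ : Fin m).castSucc
          · rw [if_pos h1, if_pos h1, if_neg (fun h2 => n1 (h2.symm.trans h1)), add_zero]
          · rw [if_neg h1, if_neg h1, zero_add]
        rw [h5, dotProduct_add, dotProduct_single, dotProduct_single, mul_one]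
        have e1 : (⟨r, hr'⟩ : Fin m).castSucc.val = r := rfl
        have e2 : (⟨r, hr'⟩ : Fin m).succ.val = r + 1 := rfl
        rw [e1, e2, mul_neg, ← T_add]
        push_cast
        ring
      rw [Matrix.vecMul_vecMulVec, h4, zero_smul, add_zero]
    rw [h3, ih (by omega)]

theorem burau_pow (m t : ℕ) : ∃ g : Fin (m + 1) → ℤ[T;T⁻¹], ∑ j, g j = 1 - T (t : ℤ) ∧
    ∀ i j : Fin (m + 1),
      (burau m (rn m 0 m ^ t) : Matrix (Fin (m + 1)) (Fin (m + 1)) ℤ[T;T⁻¹]) i j =
        (if j.val = (i.val + t) % (m + 1) then T (t : ℤ) else 0) + g j := by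
  induction t with
  | zero =>
    refine ⟨fun _ => 0, ?_, ?_⟩
    · rw [Finset.sum_const_zero, Nat.cast_zero, T_zero, sub_self]
    · intro i j
      rw [pow_zero, map_one, Units.val_one, Matrix.one_apply, add_zero, add_zero,
        Nat.mod_eq_of_lt i.isLt, Nat.cast_zero, T_zero]
      have h : (j.val = i.val) ↔ i = j := by
        rw [Fin.ext_iff]; exact eq_comm
      simp only [h]
  | succ t ih =>
    obtain ⟨g, hg, hM⟩ := ih
    have hrow : ∀ k : Fin (m + 1), ∑ j, (burau m (rn m 0 m) :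
        Matrix (Fin (m + 1)) (Fin (m + 1)) ℤ[T;T⁻¹]) k j = 1 := by
      intro k
      have h1 := congrFun (burauRn_row m m le_rfl) k
      rw [Matrix.mulVec, dotProduct] at h1
      simpa using h1
    refine ⟨fun j => T (t : ℤ) * ((1 - T 1) * (if j = 0 then 1 else 0)) +
      ∑ k, g k * (burau m (rn m 0 m) : Matrix (Fin (m + 1)) (Fin (m + 1)) ℤ[T;T⁻¹]) k j, ?_, ?_⟩
    · rw [Finset.sum_add_distrib, Finset.sum_comm]
      simp only [← Finset.mul_sum, hrow, mul_one]
      rw [hg, Finset.sum_ite_eq']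
      simp only [Finset.mem_univ, if_true, mul_one]
      rw [mul_sub, mul_one, ← T_add]
      push_cast
      ring
    · intro i j
      rw [pow_succ, map_mul, Units.val_mul, Matrix.mul_apply]
      simp only [hM, add_mul]
      rw [Finset.sum_add_distrib, ← add_assoc]
      congr 1
      have hlt : (i.val + t) % (m + 1) < m + 1 := Nat.mod_lt _ (Nat.succ_pos m)
      rw [Finset.sum_eq_single (⟨(i.val + t) % (m + 1), hlt⟩ : Fin (m + 1))]
      · rw [if_pos rfl, burauRn_full]
        have h2 : ((i.val + t) % (m + 1) + 1) % (m + 1) = (i.val + (t + 1)) % (m + 1) := by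
          rw [← add_assoc, Nat.mod_add_mod]
        change T (t : ℤ) * ((1 - T 1) * (if j = 0 then 1 else 0) + T 1 *
          (if j.val = ((i.val + t) % (m + 1) + 1) % (m + 1) then 1 else 0)) = _
        rw [h2]
        have h3 : (T ((t + 1 : ℕ) : ℤ) : ℤ[T;T⁻¹]) = T (t : ℤ) * T 1 := by
          rw [← T_add]; push_cast; rfl
        rw [h3]
        split_ifs <;> ring
      · intro k _ hk
        rw [if_neg, zero_mul]
        intro h
        exact hk (Fin.ext h)
      · intro h; exact absurd (Finset.mem_univ _) h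

theorem burauRn_pow_row (m t : ℕ) :
    (burau m (rn m 0 m ^ t) : Matrix (Fin (m + 1)) (Fin (m + 1)) ℤ[T;T⁻¹]).mulVec (fun _ => 1) =
      fun _ => 1 := by
  induction t with
  | zero => rw [pow_zero, map_one, Units.val_one, Matrix.one_mulVec]
  | succ t ih =>
    rw [pow_succ, map_mul, Units.val_mul, ← Matrix.mulVec_mulVec, burauRn_row m m le_rfl, ih]

theorem burauRn_pow_null (m t : ℕ) :
    Matrix.vecMul (fun i : Fin (m + 1) => T (i.val : ℤ))
      (burau m (rn m 0 m ^ t) : Matrix (Fin (m + 1)) (Fin (m + 1)) ℤ[T;T⁻¹]) =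
      fun i : Fin (m + 1) => T (i.val : ℤ) := by
  induction t with
  | zero => rw [pow_zero, map_one, Units.val_one, Matrix.vecMul_one]
  | succ t ih =>
    rw [pow_succ, map_mul, Units.val_mul, ← Matrix.vecMul_vecMul, ih, burauRn_null m m le_rfl]

theorem burau_row_sum (m b t : ℕ) (hb : b ≤ m) (i : Fin (m + 1)) :
    ∑ j, (burau m (oneBridge m b t) : Matrix (Fin (m + 1)) (Fin (m + 1)) ℤ[T;T⁻¹]) i j = 1 := by
  have h : (burau m (oneBridge m b t) : Matrix (Fin (m + 1)) (Fin (m + 1)) ℤ[T;T⁻¹]).mulVec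
      (fun _ => 1) = fun _ => 1 := by
    unfold oneBridge
    rw [map_mul, Units.val_mul, ← Matrix.mulVec_mulVec, burauRn_pow_row, burauRn_row m b hb]
  have h1 := congrFun h i
  rw [Matrix.mulVec, dotProduct] at h1
  simpa using h1

theorem burau_null (m b t : ℕ) (hb : b ≤ m) (j : Fin (m + 1)) :
    ∑ i : Fin (m + 1), T (i.val : ℤ) *
      (burau m (oneBridge m b t) : Matrix (Fin (m + 1)) (Fin (m + 1)) ℤ[T;T⁻¹]) i j =
        T (j.val : ℤ) := by
  have h : Matrix.vecMul (fun i : Fin (m + 1) => T (i.val : ℤ))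
      (burau m (oneBridge m b t) : Matrix (Fin (m + 1)) (Fin (m + 1)) ℤ[T;T⁻¹]) =
      fun i : Fin (m + 1) => T (i.val : ℤ) := by
    unfold oneBridge
    rw [map_mul, Units.val_mul, ← Matrix.vecMul_vecMul, burauRn_null m b hb, burauRn_pow_null]
  exact congrFun h j

end Pool.Agent.Helper62.OB
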