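import Mathlib

/-!
# OB-LA: two determinants

* `det_rank_one`.  Let `U` be the identity matrix with its row `0` replaced by `v` (`det U = v 0 = 1`) and `W` the identity matrix with its column `0`
  replaced by the constant vector `1` (`det W = 1`).  `U * (Y + 1 ⊗ g) * W` has the entries: `(0,0)`: `(∑ v) (∑ g)`; `(0,j)`: `(∑ v) g j`;
  `(i,0)`: `∑ g`; `(i,j)`: `Y i j + g j` (`i, j ≥ 1`).  The row `0` is `(∑ v)` times the row `r = (∑ g, g 1, ..., g n)`.  Take the factor out
  (`Matrix.det_updateRow_smul`), then subtract the row `0` from all the other rows (`Matrix.det_eq_of_forall_row_eq_smul_add_const` or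
  `Matrix.det_updateRow_add_smul_self`): the rows become `(0, Y i 1, ..., Y i n)`; expand along the column `0` (`Matrix.det_succ_column_zero`).
  (Any other proof is fine; e.g. first `det (Y + 1 ⊗ g)` is affine in `g`, ...)
* `det_cyclic`.  Induction on `n` with the sequences shifted: expand along the row `0`: `1 - c 0` in the place `0`, `- a 0` in the place `1`
  (for `n ≥ 1`).  The minor of the place `(0, 0)` is upper triangular with `1`s on the diagonal; the minor of `(0, 1)` is the matrix of the same form
  for `k ↦ a (k + 1)`, `k ↦ c (k + 1)` but with the column `0` equal to `- c (k + 1)` without the `1` in the corner, ... so it may be easier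
  to prove the more general formula with the entry of the corner a variable `z`: the matrix with `(0,0)` entry `z - c 0` has the determinant
  `z - ∑ k, c k * ∏ j < k, a j`.  (The matrix of `n` is then `z - c 0` times `1` plus `a 0` times the determinant for `n - 1` with `z = 0`.)
-/

set_option autoImplicit false

namespace Pool.Agent.Helper62.OB

theorem det_rank_one {R : Type*} [CommRing R] (n : ℕ) (Y : Matrix (Fin (n + 1)) (Fin (n + 1)) R)
    (g v : Fin (n + 1) → R) (h1 : ∀ i, ∑ j, Y i j = 0) (h2 : ∀ j, ∑ i, v i * Y i j = 0)
    (h0 : v 0 = 1) :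
    (Y + Matrix.of fun _ j => g j).det =
      (∑ j, g j) * (∑ i, v i) * (Y.submatrix Fin.succ Fin.succ).det := by
  set M := Y + Matrix.of fun _ j => g j with hM
  -- replace the row `0` by the combination of the rows with the coefficients `v`
  have e1 : M.det = (∑ i, v i) * (M.updateRow 0 g).det := by
    have h := Matrix.det_updateRow_sum M 0 v
    have h3 : (∑ k, v k • M k) = (∑ i, v i) • g := by
      funext j
      rw [Finset.sum_apply, Pi.smul_apply, smul_eq_mul, Finset.sum_mul]
      have h4 : ∀ k, (v k • M k) j = v k * Y k j + v k * g j := by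
        intro k
        rw [Pi.smul_apply, smul_eq_mul, hM, Matrix.add_apply, Matrix.of_apply, mul_add]
      rw [Finset.sum_congr rfl fun k _ => h4 k, Finset.sum_add_distrib, h2, zero_add]
    rw [h3, Matrix.det_updateRow_smul, h0, one_smul] at h
    exact h.symm
  -- subtract the row `0` from the other rows
  have e2 : (M.updateRow 0 g).det = (Y.updateRow 0 g).det := by
    refine Matrix.det_eq_of_forall_row_eq_smul_add_const (fun i => if i = 0 then 0 else 1) 0
      (if_pos rfl) fun i j => ?_
    by_cases hi : i = 0
    · subst hi
      simp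
    · rw [Matrix.updateRow_ne hi, Matrix.updateRow_ne hi, Matrix.updateRow_self, if_neg hi,
        one_mul, hM, Matrix.add_apply, Matrix.of_apply]
  -- replace the column `0` by the sum of all columns
  have e3 : (Y.updateRow 0 g).det = (∑ j, g j) * (Y.submatrix Fin.succ Fin.succ).det := by
    have h := Matrix.det_updateCol_sum (Y.updateRow 0 g) 0 (fun _ => (1 : R))
    rw [one_smul] at h
    rw [← h, Matrix.det_succ_column_zero, Finset.sum_eq_single 0]
    · have e4 : ((Y.updateRow 0 g).updateCol 0 fun k => ∑ i, (1 : R) • (Y.updateRow 0 g) k i).submatrix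
          (Fin.succAbove 0) Fin.succ = Y.submatrix Fin.succ Fin.succ := by
        ext i j
        rw [Matrix.submatrix_apply, Matrix.submatrix_apply,
          Matrix.updateCol_ne (Fin.succ_ne_zero j), Fin.zero_succAbove,
          Matrix.updateRow_ne (Fin.succ_ne_zero i)]
      have e5 : (∑ i, (1 : R) • (Y.updateRow 0 g) 0 i) = ∑ j, g j := by
        refine Finset.sum_congr rfl fun i _ => ?_
        rw [one_smul, Matrix.updateRow_self]
      rw [e4, Matrix.updateCol_self, Fin.val_zero, pow_zero, one_mul, e5]
    · intro i _ hi
      rw [Matrix.updateCol_self]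
      have h5 : (∑ k, (1 : R) • (Y.updateRow 0 g) i k) = 0 := by
        rw [← h1 i]
        refine Finset.sum_congr rfl fun j _ => ?_
        rw [one_smul, Matrix.updateRow_ne hi]
      rw [h5, mul_zero, zero_mul]
    · intro h
      exact absurd (Finset.mem_univ _) h
  rw [e1, e2, e3]
  ring

theorem det_cyclic {R : Type*} [CommRing R] (n : ℕ) (a c : ℕ → R) :
    (Matrix.of fun k l : Fin (n + 1) => (if k = l then 1 else 0) -
      (if l.val = k.val + 1 then a k.val else 0) - (if l = 0 then c k.val else 0)).det =
      1 - ∑ k ∈ Finset.range (n + 1), c k * ∏ j ∈ Finset.range k, a j := by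
  set A : Matrix (Fin (n + 1)) (Fin (n + 1)) R :=
    Matrix.of fun k l : Fin (n + 1) => (if k = l then 1 else 0) -
      (if l.val = k.val + 1 then a k.val else 0) - (if l = 0 then c k.val else 0) with hA
  have hAa : ∀ k l, A k l = (if k = l then 1 else 0) -
      (if l.val = k.val + 1 then a k.val else 0) - (if l = 0 then c k.val else 0) :=
    fun k l => rfl
  set p : Fin (n + 1) → R := fun k => ∏ j ∈ Finset.range k.val, a j with hp
  have h := Matrix.det_updateRow_sum A 0 p
  have hp0 : p 0 = 1 := by simp [hp]
  rw [hp0, one_smul] at h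
  -- the new row
  have h3 : ∀ l, (∑ k, p k • A k) l = if l = 0 then
      1 - ∑ k ∈ Finset.range (n + 1), c k * ∏ j ∈ Finset.range k, a j else 0 := by
    intro l
    rw [Finset.sum_apply]
    have h4 : ∀ k, (p k • A k) l = (if k = l then p k else 0) -
        (if l.val = k.val + 1 then p k * a k.val else 0) - (if l = 0 then p k * c k.val else 0) := by
      intro k
      rw [Pi.smul_apply, smul_eq_mul, hAa, mul_sub, mul_sub, mul_ite, mul_ite, mul_ite, mul_zero,
        mul_one]
    rw [Finset.sum_congr rfl fun k _ => h4 k, Finset.sum_sub_distrib, Finset.sum_sub_distrib,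
      Finset.sum_ite_eq' Finset.univ l p, if_pos (Finset.mem_univ l)]
    by_cases hl : l = 0
    · subst hl
      rw [if_pos rfl, hp0]
      have h5 : ∑ k : Fin (n + 1), (if (0 : Fin (n + 1)).val = k.val + 1 then
          p k * a k.val else 0) = 0 := by
        refine Finset.sum_eq_zero fun k _ => if_neg ?_
        rw [Fin.val_zero]
        omega
      rw [h5, sub_zero]
      congr 1
      rw [← Fin.sum_univ_eq_sum_range (fun k => c k * ∏ j ∈ Finset.range k, a j) (n + 1)]
      refine Finset.sum_congr rfl fun k _ => ?_
      rw [if_pos rfl, mul_comm]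
    · rw [if_neg hl]
      have h5 : ∑ k : Fin (n + 1), (if l = 0 then p k * c k.val else 0) = 0 :=
        Finset.sum_eq_zero fun k _ => if_neg hl
      rw [h5, sub_zero]
      have hl1 : l.val ≠ 0 := fun h6 => hl (Fin.ext h6)
      have hl2 := l.isLt
      rw [Finset.sum_eq_single (⟨l.val - 1, by omega⟩ : Fin (n + 1))]
      · rw [if_pos (show l.val = (l.val - 1) + 1 by omega)]
        have h6 : p l = p ⟨l.val - 1, by omega⟩ * a (l.val - 1) := by
          have h7 : l.val = (l.val - 1) + 1 := by omega
          change ∏ j ∈ Finset.range l.val, a j =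
            (∏ j ∈ Finset.range (l.val - 1), a j) * a (l.val - 1)
          conv_lhs => rw [h7]
          rw [Finset.prod_range_succ]
        rw [h6, sub_self]
      · intro k _ hk
        refine if_neg fun h6 => hk (Fin.ext ?_)
        change k.val = l.val - 1
        omega
      · intro h6
        exact absurd (Finset.mem_univ _) h6
  rw [← h, Matrix.det_succ_row_zero, Finset.sum_eq_single 0]
  · rw [Matrix.updateRow_self, h3, if_pos rfl, Fin.val_zero, pow_zero, one_mul]
    have h5 : ((A.updateRow 0 (∑ k, p k • A k)).submatrix Fin.succ (Fin.succAbove 0)).det = 1 := by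
      have h6 : ∀ k l : Fin n, ((A.updateRow 0 (∑ k, p k • A k)).submatrix Fin.succ
          (Fin.succAbove 0)) k l = (if k = l then 1 else 0) -
            (if l.val = k.val + 1 then a (k.val + 1) else 0) := by
        intro k l
        rw [Matrix.submatrix_apply, Fin.zero_succAbove, Matrix.updateRow_ne (Fin.succ_ne_zero k),
          hAa, if_neg (Fin.succ_ne_zero l), sub_zero, Fin.val_succ, Fin.val_succ]
        simp only [Fin.succ_inj, add_left_inj]
      rw [Matrix.det_of_isUpperTriangular]
      · refine Finset.prod_eq_one fun k _ => ?_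
        rw [h6, if_pos rfl, if_neg (by omega), sub_zero]
      · intro k l hkl
        have hkl' : l < k := hkl
        rw [h6, if_neg (ne_of_gt hkl'), if_neg, sub_zero]
        have := Fin.lt_def.1 hkl'
        omega
    rw [h5, mul_one]
  · intro l _ hl
    rw [Matrix.updateRow_self, h3, if_neg hl, mul_zero, zero_mul]
  · intro h6
    exact absurd (Finset.mem_univ _) h6

end Pool.Agent.Helper62.OB
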