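import Mathlib
import Pool.Agent.Helper62.OB.Defs
import Pool.Agent.Helper62.OB.St.LinAlg
import Pool.Agent.Helper62.OB.St.BurauRn

/-!
# OB-AK: the Alexander polynomial of a 1-bridge braid

Let `w = m + 1`, `x = T 1`, `q = t % w`, `N = burau (rn m 0 b)`, `Y = 1 - burau (oneBridge m b t)`, `g` from `burau_pow`.
* `burau (oneBridge) = N * burau (rn m 0 m ^ t)`, and `N` has row sums `1` (`burau_rn`), so `Y = B - 1 ⊗ g` with
  `B i j = [i = j] - T t * ∑ l, N i l [j = (l + t) % w]`, i.e. `Y + 1 ⊗ g = B`.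
* `det_rank_one` with `v i = T i` (`burau_row_sum`, `burau_null`): `det B = (1 - T t) (∑_{i < w} T i) * alexander`.
* By `burau_rn`: `B i j = [i = j] - a i [j = (C i + t) % w] - c i [j = q]` where `a i = T (t + 1)` for `i ≤ b` and `T t` for `i > b`;
  `c i = (1 - x) T t` for `i ≤ b` and `0` for `i > b`; `C i = i + 1` for `i < b`, `C b = 0`, `C i = i` for `i > b`
  (for `i = b`: the row `b` of `N` is `e_0`, `T t [j = q] = T (t + 1) [j = q] + (1 - x) T t [j = q]`).
* By `Orb` the map `e : k ↦ xs w b t k` is a bijection of `Fin w` (`xs < w` always), and `(C (xs k) + t) % w = xs (k + 1)`, `xs w = xs 0 = q`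
  as `xs (w - 1) = b`.  Reindex `B` by `e` (`Matrix.det_submatrix_equiv_self`): the entries are
  `[k = l] - [l = k + 1] a (xs k) - [l = 0] (c (xs k) + (if k = w - 1 then a (xs k) else 0))`, so `det_cyclic` gives
  `det B = 1 - ∑_{k < w} c' k ∏_{j < k} a (xs j)`, `c' k = c (xs k)` for `k < w - 1`, `c' (w - 1) = (1 - x) T t + T (t + 1) = T t`.
* For `k < w`: `∏_{j < k} a (xs j) = T (se w b t k)` (as `xs j ≠ b` for `j < w - 1`: `xs j ≤ b ↔ xs j < b ↔ ep = 1`).
* For `k < w - 1`: `c' k * T (se k) = T (t + se k) - T (se (k + 1))` in both cases `ep = 0, 1` (`se (k + 1) = se k + t + ep k`; lemma `se_succ`).  So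
  `det B = 1 - ∑_{k < w - 1} (T (t + se k) - T (se (k + 1))) - T (t + se (w - 1)) = (1 - T t) ∑_{k < w} T (se k)` (`se 0 = 0`).
* Cancel `1 - T t ≠ 0` (`t ≥ 1`, `ℤ[T;T⁻¹]` is a domain; e.g. `T` injective: compare coefficients, `T t = 1 = T 0 → t = 0`).
-/

set_option autoImplicit false

namespace Pool.Agent.Helper62.OB

open Polynomial LaurentPolynomial

theorem se_succ (w b t k : ℕ) : se w b t (k + 1) = se w b t k + t + ep w b t k := by
  unfold se
  rw [Finset.sum_range_succ]
  ring

theorem alexkey_xs_lt (m b t k : ℕ) : xs (m + 1) b t k < m + 1 := by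
  cases k with
  | zero => exact Nat.mod_lt _ (Nat.succ_pos m)
  | succ k => exact Nat.mod_lt _ (Nat.succ_pos m)

/-- the entries of `1 - B` -/
noncomputable def alexkey_A (m b t : ℕ) (i j : ℕ) : ℤ[T;T⁻¹] :=
  if i < b then (1 - T 1) * T (t : ℤ) * (if j = t % (m + 1) then 1 else 0) +
    T ((t : ℤ) + 1) * (if j = (i + 1 + t) % (m + 1) then 1 else 0)
  else if i = b then T (t : ℤ) * (if j = t % (m + 1) then 1 else 0)
  else T (t : ℤ) * (if j = (i + t) % (m + 1) then 1 else 0)

theorem alexkey_entry (m b t : ℕ) (hb : b ≤ m) (g : Fin (m + 1) → ℤ[T;T⁻¹])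
    (hg : ∀ i j : Fin (m + 1),
      (burau m (rn m 0 m ^ t) : Matrix (Fin (m + 1)) (Fin (m + 1)) ℤ[T;T⁻¹]) i j =
        (if j.val = (i.val + t) % (m + 1) then T (t : ℤ) else 0) + g j) (i j : Fin (m + 1)) :
    (burau m (oneBridge m b t) : Matrix (Fin (m + 1)) (Fin (m + 1)) ℤ[T;T⁻¹]) i j =
      alexkey_A m b t i.val j.val + g j := by
  have h1 : (burau m (oneBridge m b t) : Matrix (Fin (m + 1)) (Fin (m + 1)) ℤ[T;T⁻¹]) =
      (burau m (rn m 0 b) : Matrix (Fin (m + 1)) (Fin (m + 1)) ℤ[T;T⁻¹]) *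
        (burau m (rn m 0 m ^ t) : Matrix (Fin (m + 1)) (Fin (m + 1)) ℤ[T;T⁻¹]) := by
    unfold oneBridge
    rw [map_mul]
    rfl
  rw [h1, Matrix.mul_apply]
  simp only [burau_rn m b hb, hg]
  unfold alexkey_A
  by_cases h2 : i.val < b
  · simp only [if_pos h2]
    have h3 : i.val + 1 < m + 1 := by omega
    have h4 : ∀ l : Fin (m + 1), (l.val = i.val + 1) ↔ (l = ⟨i.val + 1, h3⟩) := by
      intro l
      rw [Fin.ext_iff]
    simp only [h4, add_mul, Finset.sum_add_distrib, ite_mul, zero_mul,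
      mul_ite, mul_zero, mul_one]
    simp only [Finset.sum_ite_eq', Finset.mem_univ, if_true, Fin.val_zero, zero_add]
    have h5 : (T ((t : ℤ) + 1) : ℤ[T;T⁻¹]) = T (t : ℤ) * T 1 := T_add _ _
    rw [h5]
    split_ifs <;> ring
  · simp only [if_neg h2]
    by_cases h3 : i.val = b
    · simp only [if_pos h3]
      simp only [ite_mul, one_mul, zero_mul, Finset.sum_ite_eq', Finset.mem_univ, if_true,
        Fin.val_zero, zero_add]
      split_ifs <;> ring
    · simp only [if_neg h3]
      simp only [ite_mul, one_mul, zero_mul, Finset.sum_ite_eq, Finset.mem_univ, if_true]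
      split_ifs <;> ring

theorem alexkey_det (m b t : ℕ) (hb : b ≤ m) :
    (1 - T (t : ℤ)) * ((∑ i ∈ Finset.range (m + 1), (T (i : ℤ) : ℤ[T;T⁻¹])) *
      alexander (oneBridge m b t)) =
      (Matrix.of fun i j : Fin (m + 1) =>
        (if i = j then 1 else 0) - alexkey_A m b t i.val j.val).det := by
  obtain ⟨g, hg1, hg2⟩ := burau_pow m t
  have h := det_rank_one m
    (1 - (burau m (oneBridge m b t) : Matrix (Fin (m + 1)) (Fin (m + 1)) ℤ[T;T⁻¹])) g
    (fun i => T (i.val : ℤ)) (by
      intro i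
      simp only [Matrix.sub_apply, Finset.sum_sub_distrib, burau_row_sum m b t hb i]
      simp [Matrix.one_apply]) (by
      intro j
      simp only [Matrix.sub_apply, mul_sub, Finset.sum_sub_distrib, burau_null m b t hb j]
      simp [Matrix.one_apply]) (by simp)
  have h2 : (1 - (burau m (oneBridge m b t) : Matrix (Fin (m + 1)) (Fin (m + 1)) ℤ[T;T⁻¹])) +
      (Matrix.of fun _ j => g j) = Matrix.of fun i j : Fin (m + 1) =>
        (if i = j then 1 else 0) - alexkey_A m b t i.val j.val := by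
    ext1 i j
    simp only [Matrix.add_apply, Matrix.sub_apply, Matrix.of_apply, Matrix.one_apply,
      alexkey_entry m b t hb g hg2 i j]
    ring
  rw [h2, hg1] at h
  rw [h]
  unfold alexander
  rw [Finset.sum_range, mul_assoc]

theorem alexkey_ep_prod (w b t k : ℕ) :
    ∏ j ∈ Finset.range k, (T ((t : ℤ) + (ep w b t j : ℕ)) : ℤ[T;T⁻¹]) = T (se w b t k : ℤ) := by
  induction k with
  | zero => simp [se]
  | succ k ih =>
    rw [Finset.prod_range_succ, ih, ← T_add, se_succ]
    congr 1
    push_cast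
    ring

theorem alexkey_c (m b t k : ℕ) (hk : xs (m + 1) b t k ≠ b) :
    (if xs (m + 1) b t k < b then (1 - T 1) * T (t : ℤ)
      else if xs (m + 1) b t k = b then T (t : ℤ) else 0) * T (se (m + 1) b t k : ℤ) =
      (T (t : ℤ) * T (se (m + 1) b t k : ℤ) - T (se (m + 1) b t (k + 1) : ℤ) : ℤ[T;T⁻¹]) := by
  rw [se_succ]
  by_cases h : xs (m + 1) b t k < b
  · have he : ep (m + 1) b t k = 1 := by
      unfold ep
      rw [if_pos h]
    rw [if_pos h, he]
    push_cast
    rw [T_add, T_add]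
    ring
  · have he : ep (m + 1) b t k = 0 := by
      unfold ep
      rw [if_neg h]
    rw [if_neg h, if_neg hk, he]
    push_cast
    rw [T_add, T_add, T_zero]
    ring

theorem alexkey_T_ne (t : ℕ) (ht : 1 ≤ t) : (1 - T (t : ℤ) : ℤ[T;T⁻¹]) ≠ 0 := by
  intro h
  have h2 : (T 0 : ℤ[T;T⁻¹]) = T (t : ℤ) := by
    rw [T_zero]
    exact sub_eq_zero.1 h
  have h3 := congrArg (fun f : ℤ[T;T⁻¹] => f.coeff 0) h2
  simp at h3
  omega

theorem alex_key (m b t : ℕ) (hb : b ≤ m) (ht : 1 ≤ t) (h : Orb (m + 1) b t) :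
    (∑ i ∈ Finset.range (m + 1), (T (i : ℤ) : ℤ[T;T⁻¹])) * alexander (oneBridge m b t) =
      ∑ k ∈ Finset.range (m + 1), T (se (m + 1) b t k : ℤ) := by
  apply mul_left_cancel₀ (alexkey_T_ne t ht)
  rw [alexkey_det m b t hb]
  obtain ⟨hinj, hlast⟩ := h
  have hlast' : xs (m + 1) b t m = b := by simpa using hlast
  have hxne : ∀ k, k < m → xs (m + 1) b t k ≠ b := by
    intro k hk hkb
    have := hinj k (by omega) m (by omega) (by rw [hkb, hlast'])
    omega
  -- the bijection
  let f : Fin (m + 1) → Fin (m + 1) := fun k => ⟨xs (m + 1) b t k.val, alexkey_xs_lt m b t k.val⟩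
  have hf : Function.Injective f := by
    intro k l hkl
    have h1 : xs (m + 1) b t k.val = xs (m + 1) b t l.val := congrArg Fin.val hkl
    exact Fin.ext (hinj _ k.isLt _ l.isLt h1)
  let e : Fin (m + 1) ≃ Fin (m + 1) :=
    Equiv.ofBijective f (Finite.injective_iff_bijective.1 hf)
  have he : ∀ k : Fin (m + 1), (e k).val = xs (m + 1) b t k.val := fun k => rfl
  let a : ℕ → ℤ[T;T⁻¹] := fun k => T ((t : ℤ) + (ep (m + 1) b t k : ℕ))
  let c : ℕ → ℤ[T;T⁻¹] := fun k => if xs (m + 1) b t k < b then (1 - T 1) * T (t : ℤ)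
      else if xs (m + 1) b t k = b then T (t : ℤ) else 0
  rw [← Matrix.det_submatrix_equiv_self e]
  have hmat : (Matrix.of fun i j : Fin (m + 1) =>
        (if i = j then 1 else 0) - alexkey_A m b t i.val j.val).submatrix e e =
      (Matrix.of fun k l : Fin (m + 1) => (if k = l then 1 else 0) -
      (if l.val = k.val + 1 then a k.val else 0) - (if l = 0 then c k.val else 0)) := by
    ext1 k l
    simp only [Matrix.submatrix_apply, Matrix.of_apply, he, EmbeddingLike.apply_eq_iff_eq]
    have hq : (xs (m + 1) b t l.val = t % (m + 1)) ↔ (l = 0) := by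
      constructor
      · intro h1
        apply Fin.ext
        have h2 : xs (m + 1) b t 0 = t % (m + 1) := rfl
        rw [← h2] at h1
        exact hinj _ l.isLt _ (by omega) h1
      · intro h1
        rw [h1]
        rfl
    have hnext : k.val < m → ∀ y, xs (m + 1) b t (k.val + 1) = y →
        ((xs (m + 1) b t l.val = y) ↔ (l.val = k.val + 1)) := by
      intro hk y hy
      rw [← hy]
      constructor
      · intro h1
        exact hinj _ l.isLt _ (by omega) h1
      · intro h1
        rw [h1]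
    unfold alexkey_A
    rcases lt_or_ge k.val m with hk | hk
    · have hne := hxne k.val hk
      rcases lt_or_gt_of_ne hne with hlt | hgt
      · have hy : xs (m + 1) b t (k.val + 1) = (xs (m + 1) b t k.val + 1 + t) % (m + 1) := by
          show ((if xs (m + 1) b t k.val < b then xs (m + 1) b t k.val + 1 else
            if xs (m + 1) b t k.val = b then 0 else xs (m + 1) b t k.val) + t) % (m + 1) = _
          rw [if_pos hlt]
        simp only [if_pos hlt, hq, hnext hk _ hy, a, c, ep]
        split_ifs <;> push_cast <;> ring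
      · have hlt' : ¬ xs (m + 1) b t k.val < b := not_lt.2 hgt.le
        have hy : xs (m + 1) b t (k.val + 1) = (xs (m + 1) b t k.val + t) % (m + 1) := by
          show ((if xs (m + 1) b t k.val < b then xs (m + 1) b t k.val + 1 else
            if xs (m + 1) b t k.val = b then 0 else xs (m + 1) b t k.val) + t) % (m + 1) = _
          rw [if_neg hlt', if_neg hne]
        simp only [if_neg hlt', if_neg hne, hnext hk _ hy, a, c, ep]
        push_cast
        simp only [add_zero]
        split_ifs <;> ring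
    · have hkm : k.val = m := by
        have := k.isLt
        omega
      have hxb : xs (m + 1) b t k.val = b := by rw [hkm, hlast']
      have hlt' : ¬ xs (m + 1) b t k.val < b := by omega
      have hno : ¬ l.val = k.val + 1 := by
        have := l.isLt
        omega
      simp only [if_neg hlt', if_pos hxb, hq, if_neg hno, c]
      split_ifs <;> ring
  rw [hmat, det_cyclic]
  have hprod : ∀ k, ∏ j ∈ Finset.range k, a j = T (se (m + 1) b t k : ℤ) :=
    fun k => alexkey_ep_prod (m + 1) b t k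
  simp only [hprod]
  rw [Finset.sum_range_succ]
  have hcm : c m = T (t : ℤ) := by
    simp only [c, hlast', lt_irrefl, if_false, if_true]
  have hsum : ∑ k ∈ Finset.range m, c k * T (se (m + 1) b t k : ℤ) =
      ∑ k ∈ Finset.range m, (T (t : ℤ) * T (se (m + 1) b t k : ℤ) -
        T (se (m + 1) b t (k + 1) : ℤ) : ℤ[T;T⁻¹]) := by
    apply Finset.sum_congr rfl
    intro k hk
    exact alexkey_c m b t k (hxne k (Finset.mem_range.1 hk))
  rw [hsum, hcm, Finset.sum_sub_distrib, sub_mul, one_mul]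
  have h0 : (T (se (m + 1) b t 0 : ℤ) : ℤ[T;T⁻¹]) = 1 := by
    simp [se]
  have h1 : ∑ k ∈ Finset.range (m + 1), (T (se (m + 1) b t k : ℤ) : ℤ[T;T⁻¹]) =
      ∑ k ∈ Finset.range m, T (se (m + 1) b t (k + 1) : ℤ) + 1 := by
    rw [Finset.sum_range_succ', h0]
  have h2 : (T (t : ℤ) : ℤ[T;T⁻¹]) * ∑ k ∈ Finset.range (m + 1), T (se (m + 1) b t k : ℤ) =
      ∑ k ∈ Finset.range m, T (t : ℤ) * T (se (m + 1) b t k : ℤ) +
        T (t : ℤ) * T (se (m + 1) b t m : ℤ) := by
    rw [Finset.mul_sum, Finset.sum_range_succ]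
  rw [h2, h1]
  ring

end Pool.Agent.Helper62.OB
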