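import Mathlib

/-!
# OB-C4: a combinatorial lemma

`cb B x` is the cyclic shift of `0, ..., B`.  The proof of `c4`: let `d = gcd w e`, `R = {f k : k < n}`.
1. `R` is closed under `r ↦ (r + e) % w`: if `(f k + e) % w ≤ B` use `hcov`; otherwise `f (k + 1) = (f k + e) % w`, and `k + 1 = n` is fine by `hper`.
   Hence (Bezout) `R` is closed under `r ↦ (r + d) % w`, so it contains with `r` all `r' < w` with `r' ≡ r [MOD d]`.
2. `B < d`: otherwise every residue class mod `d` has a representative `≤ B`, so `R = {0, ..., w - 1}`, `n = w` and `g = 1`.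
3. `f k % d ≤ B` for all `k`, by induction (`f 0 = 0`): `((f k + e) % w) % d = f k % d ≤ B`; if `(f k + e) % w ≤ B` then `f (k + 1) ≤ B < d`;
   otherwise `f (k + 1) = (f k + e) % w`.
4. So `R = {r < w : r % d ≤ B}` (`⊇`: `r % d ≤ B` is in `R` by `hcov`, and 1.), and counting gives `n = (w / d) (B + 1)`;
   with `w = n g`: `n d = w (B + 1) = n g (B + 1)`, so `d = g (B + 1)`.
-/

set_option autoImplicit false

namespace Pool.Agent.Helper62.OB

/-- the cyclic shift of `0, ..., B` -/
def cb (B x : ℕ) : ℕ := if x < B then x + 1 else if x = B then 0 else x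

theorem comb_lt (w B e : ℕ) (f : ℕ → ℕ) (hw0 : 0 < w) (hB : B < w)
    (h0 : f 0 = 0) (hf : ∀ k, f (k + 1) = cb B ((f k + e) % w)) (k : ℕ) : f k < w := by
  cases k with
  | zero => rw [h0]; exact hw0
  | succ k =>
    have h1 := Nat.mod_lt (f k + e) hw0
    rw [hf, cb]
    split_ifs <;> omega

/-- a set closed under a translation mod `w` contains the residue classes mod `gcd w e` -/
theorem comb_closed (w e : ℕ) (hw0 : 0 < w) (P : ℕ → Prop)
    (h1 : ∀ r, P r → P ((r + e) % w)) (r r' : ℕ) (hP : P r) (hr : r < w) (hr' : r' < w)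
    (h : r' % Nat.gcd w e = r % Nat.gcd w e) : P r' := by
  -- multiples of `e`
  have h2 : ∀ j : ℕ, P ((r + j * e) % w) := by
    intro j
    induction j with
    | zero =>
      rw [zero_mul, add_zero, Nat.mod_eq_of_lt hr]
      exact hP
    | succ j ih =>
      have h3 := h1 _ ih
      have h4 : ((r + j * e) % w + e) % w = (r + (j + 1) * e) % w := by
        rw [Nat.mod_add_mod]
        congr 1
        ring
      rwa [h4] at h3
  -- solve the congruence
  have h3 : ∃ j : ℕ, (r + j * e) % w = r' := by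
    have hd : ((Nat.gcd w e : ℕ) : ℤ) ∣ (r' : ℤ) - r := by
      have h4 : (r : ℤ) ≡ r' [ZMOD ((Nat.gcd w e : ℕ) : ℤ)] := by
        have h5 : r ≡ r' [MOD Nat.gcd w e] := h.symm
        exact_mod_cast (Int.natCast_modEq_iff.2 h5)
      exact h4.dvd
    obtain ⟨c, hc⟩ := hd
    have hb : ((Nat.gcd w e : ℕ) : ℤ) = w * Nat.gcdA w e + e * Nat.gcdB w e :=
      Nat.gcd_eq_gcd_ab w e
    have hw' : (0 : ℤ) < w := by exact_mod_cast hw0
    refine ⟨((c * Nat.gcdB w e) % w).toNat, ?_⟩
    have h6 : (0 : ℤ) ≤ (c * Nat.gcdB w e) % w := Int.emod_nonneg _ hw'.ne'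
    have h7 : (((((r + ((c * Nat.gcdB w e) % w).toNat * e) % w : ℕ)) : ℤ)) = r' := by
      push_cast
      rw [Int.toNat_of_nonneg h6]
      have h8 : ((r : ℤ) + (c * Nat.gcdB w e) % w * e) % w = (r' : ℤ) % w := by
        have h9 : (r : ℤ) + (c * Nat.gcdB w e) % w * e ≡ r' [ZMOD w] := by
          have h10 : (c * Nat.gcdB w e) % w ≡ c * Nat.gcdB w e [ZMOD w] := Int.mod_modEq _ _
          have h11 : (r : ℤ) + (c * Nat.gcdB w e) % w * e ≡ r + c * Nat.gcdB w e * e [ZMOD w] :=
            (h10.mul_right _).add_left _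
          refine h11.trans ?_
          refine (Int.modEq_iff_dvd).2 ⟨c * Nat.gcdA w e, ?_⟩
          have h12 : (r' : ℤ) - r = (w * Nat.gcdA w e + e * Nat.gcdB w e) * c := by
            rw [← hb]
            exact hc
          linear_combination h12
        exact h9
      rw [h8]
      exact Int.emod_eq_of_lt (by positivity) (by exact_mod_cast hr')
    exact_mod_cast h7
  obtain ⟨j, hj⟩ := h3
  rw [← hj]
  exact h2 j

/-- the number of residues -/
theorem comb_count (d q B : ℕ) (hB : B < d) (S : Finset ℕ)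
    (hS : ∀ r, r ∈ S ↔ r < q * d ∧ r % d ≤ B) : S.card = q * (B + 1) := by
  have h1 : S = (Finset.range q ×ˢ Finset.range (B + 1)).image fun p : ℕ × ℕ => p.1 * d + p.2 := by
    ext r
    rw [hS, Finset.mem_image]
    constructor
    · rintro ⟨h1, h2⟩
      refine ⟨(r / d, r % d), ?_, ?_⟩
      · rw [Finset.mem_product, Finset.mem_range, Finset.mem_range]
        refine ⟨Nat.div_lt_of_lt_mul (by rw [mul_comm]; exact h1), ?_⟩
        show r % d < B + 1
        omega
      · show r / d * d + r % d = r
        exact Nat.div_add_mod' r d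
    · rintro ⟨⟨a, b⟩, h1, rfl⟩
      rw [Finset.mem_product, Finset.mem_range, Finset.mem_range] at h1
      have ha : a < q := h1.1
      have hb : b < B + 1 := h1.2
      refine ⟨?_, ?_⟩
      · show a * d + b < q * d
        have h3 : (a + 1) * d ≤ q * d := Nat.mul_le_mul_right d ha
        have h4 : (a + 1) * d = a * d + d := by ring
        omega
      · show (a * d + b) % d ≤ B
        have h5 : (a * d + b) % d = b := by
          rw [add_comm, Nat.add_mul_mod_self_right]
          exact Nat.mod_eq_of_lt (by omega)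
        omega
  rw [h1, Finset.card_image_of_injOn, Finset.card_product, Finset.card_range, Finset.card_range]
  rintro ⟨a, b⟩ hab ⟨a', b'⟩ hab' h
  rw [Finset.mem_coe, Finset.mem_product, Finset.mem_range, Finset.mem_range] at hab hab'
  have hb : b < B + 1 := hab.2
  have hb' : b' < B + 1 := hab'.2
  have h' : a * d + b = a' * d + b' := h
  have e1 : (a * d + b) % d = b := by
    rw [add_comm, Nat.add_mul_mod_self_right]
    exact Nat.mod_eq_of_lt (by omega)
  have e2 : (a' * d + b') % d = b' := by
    rw [add_comm, Nat.add_mul_mod_self_right]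
    exact Nat.mod_eq_of_lt (by omega)
  have e3 : b = b' := by rw [← e1, h', e2]
  have e4 : a * d = a' * d := by omega
  have e5 : a = a' := Nat.eq_of_mul_eq_mul_right (by omega) e4
  rw [e3, e5]

theorem c4 (w n g B e : ℕ) (f : ℕ → ℕ) (hw : w = n * g) (hw0 : 0 < w) (hg : 2 ≤ g) (hB : B < w)
    (h0 : f 0 = 0) (hf : ∀ k, f (k + 1) = cb B ((f k + e) % w)) (hper : f n = 0)
    (hinj : ∀ i < n, ∀ j < n, f i = f j → i = j) (hcov : ∀ r ≤ B, ∃ k < n, f k = r) :
    Nat.gcd w e = g * (B + 1) := by
  have hlt := comb_lt w B e f hw0 hB h0 hf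
  set d := Nat.gcd w e with hd
  have hd0 : 0 < d := Nat.gcd_pos_of_pos_left e hw0
  have hdw : d ∣ w := Nat.gcd_dvd_left w e
  have hde : d ∣ e := Nat.gcd_dvd_right w e
  -- step 1
  have s1 : ∀ r, (∃ k < n, f k = r) → ∃ k < n, f k = (r + e) % w := by
    rintro r ⟨k, hk, rfl⟩
    by_cases hx : (f k + e) % w ≤ B
    · exact hcov _ hx
    · have h1 : f (k + 1) = (f k + e) % w := by
        rw [hf, cb, if_neg (by omega), if_neg (by omega)]
      rcases Nat.lt_or_ge (k + 1) n with h2 | h2
      · exact ⟨k + 1, h2, h1⟩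
      · have h3 : k + 1 = n := by omega
        rw [h3, hper] at h1
        omega
  have s1' : ∀ r r', (∃ k < n, f k = r) → r < w → r' < w → r' % d = r % d →
      ∃ k < n, f k = r' := fun r r' h h1 h2 h3 =>
    comb_closed w e hw0 (fun r => ∃ k < n, f k = r) s1 r r' h h1 h2 h3
  have hcard : ((Finset.range n).image f).card = n := by
    rw [Finset.card_image_of_injOn, Finset.card_range]
    intro i hi j hj h
    rw [Finset.coe_range, Set.mem_Iio] at hi hj
    exact hinj i hi j hj h
  have hn0 : 0 < n := by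
    rcases Nat.eq_zero_or_pos n with h | h
    · rw [h, zero_mul] at hw
      omega
    · exact h
  -- step 2
  have s2 : B < d := by
    by_contra hcon
    have h1 : Finset.range w ⊆ (Finset.range n).image f := by
      intro r hr
      rw [Finset.mem_range] at hr
      have h2 : r % d < d := Nat.mod_lt _ hd0
      obtain ⟨k, hk, hk'⟩ := s1' (r % d) r (hcov _ (by omega)) (lt_of_le_of_lt (Nat.mod_le r d) hr)
        hr (Nat.mod_mod r d).symm
      exact Finset.mem_image.2 ⟨k, Finset.mem_range.2 hk, hk'⟩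
    have h3 := Finset.card_le_card h1
    rw [Finset.card_range, hcard, hw] at h3
    nlinarith
  -- step 3
  have s3 : ∀ k, f k % d ≤ B := by
    intro k
    induction k with
    | zero => rw [h0, Nat.zero_mod]; omega
    | succ k ih =>
      have h1 : ((f k + e) % w) % d = f k % d := by
        rw [Nat.mod_mod_of_dvd _ hdw]
        obtain ⟨c, hc⟩ := hde
        rw [hc, Nat.add_mul_mod_self_left]
      rw [hf, cb]
      split_ifs with h2 h3
      · rw [Nat.mod_eq_of_lt (by omega)]
        omega
      · rw [Nat.zero_mod]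
        omega
      · omega
  -- step 4
  obtain ⟨q, hq⟩ := hdw
  have hq' : w = q * d := by rw [hq]; ring
  have s4 : n = q * (B + 1) := by
    rw [← hcard]
    refine comb_count d q B s2 _ fun r => ?_
    rw [Finset.mem_image]
    constructor
    · rintro ⟨k, _, rfl⟩
      exact ⟨by rw [← hq']; exact hlt k, s3 k⟩
    · rintro ⟨h1, h2⟩
      rw [← hq'] at h1
      obtain ⟨k, hk, hk'⟩ := s1' (r % d) r (hcov _ h2) (lt_of_le_of_lt (Nat.mod_le r d) h1)
        h1 (Nat.mod_mod r d).symm
      exact ⟨k, Finset.mem_range.2 hk, hk'⟩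
  have hq0 : 0 < q := by
    rcases Nat.eq_zero_or_pos q with h | h
    · rw [h, zero_mul] at hq'
      omega
    · exact h
  have h5 : q * d = q * (g * (B + 1)) := by
    rw [← hq', hw, s4]
    ring
  exact Nat.eq_of_mul_eq_mul_left hq0 h5

end Pool.Agent.Helper62.OB
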