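import Mathlib

/-!
# OB-DV: products of cyclotomic polynomials with a gap

If `P = 1 + X^a + (higher terms)` is a product of cyclotomic polynomials `Φ_N`, `N ∈ M`, up to sign, then `a ∣ N` for some `N ∈ M`.
Proof with logarithmic derivatives: for a polynomial (or power series) `f` over `ℚ` with nonzero constant term let `ld f = X f' / f` in `PowerSeries ℚ`
(`ld (f g) = ld f + ld g`), and for a power series `g` put `F_a g = ∑_{d ∣ a} μ(a/d) coeff_d g` (`a ≥ 1`, additive in `g`).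
`ld (X^N - 1) = - ∑_{j ≥ 1} N X^{jN}`, so `coeff_d = -N [N ∣ d]` and `F_a (ld (X^N - 1)) = -N ∑_{N ∣ d ∣ a} μ(a/d) = -N [N = a]`
(if `N ∤ a` the sum is empty; if `N ∣ a` it is `∑_{d' ∣ a/N} μ((a/N)/d') = [a = N]`).  As `X^N - 1 = ∏_{d ∣ N} Φ_d`, strong induction on `N` gives
`F_a (ld Φ_N) = 0` when `a ∤ N`.  (Alternatively: `ld Φ_N = ∑_{d ∣ N} μ(N/d) ld (X^d - 1)`.)
Finally `ld P = a X^a + (higher)`, so `F_a (ld P) = a ≠ 0`, while `F_a (ld P) = ∑_{N ∈ M} F_a (ld Φ_N)`.
The file Pool/Agent/Helper81/... on main has a logarithmic derivative `ld` with the lemmas `ld_X_pow_sub_one`, `ld_multiset_prod`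
(grep for them: `git grep -l ld_multiset_prod origin/main -- Pool/Agent`), which may be copied.
-/

set_option autoImplicit false

namespace Pool.Agent.Helper62.OB

open Polynomial

/-- `X f' / f` as a power series. -/
noncomputable def dvd_ld (f : ℚ[X]) : PowerSeries ℚ :=
  ((X * derivative f : ℚ[X]) : PowerSeries ℚ) * ((f : ℚ[X]) : PowerSeries ℚ)⁻¹

theorem dvd_constCoeff_ne {f : ℚ[X]} (hf : f.coeff 0 ≠ 0) :
    PowerSeries.constantCoeff ((f : ℚ[X]) : PowerSeries ℚ) ≠ 0 := by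
  rwa [← PowerSeries.coeff_zero_eq_constantCoeff_apply, coeff_coe]

theorem dvd_ld_mul_self {f : ℚ[X]} (hf : f.coeff 0 ≠ 0) :
    dvd_ld f * ((f : ℚ[X]) : PowerSeries ℚ) = ((X * derivative f : ℚ[X]) : PowerSeries ℚ) := by
  unfold dvd_ld
  rw [mul_assoc, PowerSeries.inv_mul_cancel _ (dvd_constCoeff_ne hf), mul_one]

theorem dvd_ld_eq_of_mul {f : ℚ[X]} (hf : f.coeff 0 ≠ 0) {g : PowerSeries ℚ}
    (h : g * ((f : ℚ[X]) : PowerSeries ℚ) = ((X * derivative f : ℚ[X]) : PowerSeries ℚ)) :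
    dvd_ld f = g := by
  unfold dvd_ld
  rw [← h, mul_assoc, PowerSeries.mul_inv_cancel _ (dvd_constCoeff_ne hf), mul_one]

theorem dvd_ld_mul {f g : ℚ[X]} (hf : f.coeff 0 ≠ 0) (hg : g.coeff 0 ≠ 0) :
    dvd_ld (f * g) = dvd_ld f + dvd_ld g := by
  have hfg : (f * g).coeff 0 ≠ 0 := by
    rw [mul_coeff_zero]; exact mul_ne_zero hf hg
  apply dvd_ld_eq_of_mul hfg
  rw [coe_mul, add_mul]
  have e1 : dvd_ld f * (((f : ℚ[X]) : PowerSeries ℚ) * ((g : ℚ[X]) : PowerSeries ℚ)) =
      ((X * derivative f : ℚ[X]) : PowerSeries ℚ) * ((g : ℚ[X]) : PowerSeries ℚ) := by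
    rw [← mul_assoc, dvd_ld_mul_self hf]
  have e2 : dvd_ld g * (((f : ℚ[X]) : PowerSeries ℚ) * ((g : ℚ[X]) : PowerSeries ℚ)) =
      ((X * derivative g : ℚ[X]) : PowerSeries ℚ) * ((f : ℚ[X]) : PowerSeries ℚ) := by
    rw [mul_comm ((f : ℚ[X]) : PowerSeries ℚ), ← mul_assoc, dvd_ld_mul_self hg]
  rw [e1, e2, ← coe_mul, ← coe_mul, ← coe_add, derivative_mul]
  congr 1
  ring

theorem dvd_ld_C {c : ℚ} (hc : c ≠ 0) : dvd_ld (C c) = 0 := by
  apply dvd_ld_eq_of_mul (by simpa using hc)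
  simp

theorem dvd_ld_one : dvd_ld (1 : ℚ[X]) = 0 := by
  have := dvd_ld_C (one_ne_zero (α := ℚ))
  simpa using this

theorem dvd_coeff_zero_finset_prod {ι : Type*} (s : Finset ι) (F : ι → ℚ[X])
    (h : ∀ i ∈ s, (F i).coeff 0 ≠ 0) : (∏ i ∈ s, F i).coeff 0 ≠ 0 := by
  rw [coeff_zero_prod]
  exact Finset.prod_ne_zero_iff.mpr h

theorem dvd_ld_finset_prod {ι : Type*} (s : Finset ι) (F : ι → ℚ[X])
    (h : ∀ i ∈ s, (F i).coeff 0 ≠ 0) : dvd_ld (∏ i ∈ s, F i) = ∑ i ∈ s, dvd_ld (F i) := by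
  classical
  induction s using Finset.induction_on with
  | empty => simpa using dvd_ld_one
  | insert a s ha ih =>
    rw [Finset.prod_insert ha, Finset.sum_insert ha, dvd_ld_mul, ih]
    · intro i hi; exact h i (Finset.mem_insert_of_mem hi)
    · exact h a (Finset.mem_insert_self _ _)
    · apply dvd_coeff_zero_finset_prod
      intro i hi; exact h i (Finset.mem_insert_of_mem hi)

theorem dvd_coeff_zero_multiset_prod (s : Multiset ℕ) (F : ℕ → ℚ[X])
    (h : ∀ i ∈ s, (F i).coeff 0 ≠ 0) : ((s.map F).prod).coeff 0 ≠ 0 := by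
  induction s using Multiset.induction_on with
  | empty => simp
  | cons a s ih =>
    rw [Multiset.map_cons, Multiset.prod_cons, mul_coeff_zero]
    exact mul_ne_zero (h a (Multiset.mem_cons_self _ _))
      (ih (fun i hi => h i (Multiset.mem_cons_of_mem hi)))

theorem dvd_ld_multiset_prod (s : Multiset ℕ) (F : ℕ → ℚ[X])
    (h : ∀ i ∈ s, (F i).coeff 0 ≠ 0) : dvd_ld ((s.map F).prod) = (s.map (fun i => dvd_ld (F i))).sum := by
  induction s using Multiset.induction_on with
  | empty => simpa using dvd_ld_one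
  | cons a s ih =>
    rw [Multiset.map_cons, Multiset.prod_cons, Multiset.map_cons, Multiset.sum_cons, dvd_ld_mul, ih]
    · intro i hi; exact h i (Multiset.mem_cons_of_mem hi)
    · exact h a (Multiset.mem_cons_self _ _)
    · apply dvd_coeff_zero_multiset_prod
      intro i hi; exact h i (Multiset.mem_cons_of_mem hi)

theorem dvd_ld_X_pow_sub_one {N : ℕ} (hN : 0 < N) :
    dvd_ld (X ^ N - 1) = PowerSeries.mk (fun m => if m ≠ 0 ∧ N ∣ m then -(N : ℚ) else 0) := by
  have h0 : ((X : ℚ[X]) ^ N - 1).coeff 0 ≠ 0 := by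
    rw [coeff_sub, coeff_X_pow, coeff_one_zero, if_neg (by omega)]
    norm_num
  apply dvd_ld_eq_of_mul h0
  ext m
  have hder : (X * derivative ((X : ℚ[X]) ^ N - 1) : ℚ[X]) = C (N : ℚ) * X ^ N := by
    obtain ⟨k, rfl⟩ : ∃ k, N = k + 1 := ⟨N - 1, by omega⟩
    simp
    ring
  rw [hder, coe_sub, coe_pow, coe_X, coe_one, mul_sub, mul_one, map_sub,
    PowerSeries.coeff_mul_X_pow', PowerSeries.coeff_mk, coeff_coe, coeff_C_mul, coeff_X_pow]
  by_cases hm : m = N
  · subst hm
    simp [hN.ne']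
  · rw [if_neg hm, mul_zero]
    by_cases hle : N ≤ m
    · rw [if_pos hle, PowerSeries.coeff_mk]
      have hlt : N < m := lt_of_le_of_ne hle (Ne.symm hm)
      have h1 : (m - N ≠ 0 ∧ N ∣ m - N) ↔ (m ≠ 0 ∧ N ∣ m) := by
        constructor
        · rintro ⟨_, h⟩
          exact ⟨by omega, by
            have := (Nat.dvd_add_right (dvd_refl N)).mpr h
            rwa [Nat.add_sub_cancel' hle] at this⟩
        · rintro ⟨_, h⟩
          exact ⟨by omega, Nat.dvd_sub h (dvd_refl N)⟩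
      simp only [h1, sub_self]
    · rw [if_neg hle, PowerSeries.coeff_mk]
      have h2 : ¬ (m ≠ 0 ∧ N ∣ m) := by
        rintro ⟨h3, h4⟩
        exact hle (Nat.le_of_dvd (Nat.pos_of_ne_zero h3) h4)
      rw [if_neg h2, sub_zero]

theorem dvd_cyclotomic_coeff_zero_ne (N : ℕ) : (cyclotomic N ℚ).coeff 0 ≠ 0 := by
  rcases Nat.lt_or_ge 1 N with h | h
  · rw [cyclotomic_coeff_zero _ h]; exact one_ne_zero
  · interval_cases N
    · simp
    · simp [cyclotomic_one]

/-- The coefficients of the logarithmic derivative of a cyclotomic polynomial are divisor sums of a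
function supported on the divisors of the order. -/
theorem dvd_cyclotomic_coeff (N : ℕ) (hN : 0 < N) :
    ∃ c : ℕ → ℚ, (∀ d, ¬ d ∣ N → c d = 0) ∧
      ∀ m : ℕ, m ≠ 0 → PowerSeries.coeff m (dvd_ld (cyclotomic N ℚ)) = ∑ d ∈ m.divisors, c d := by
  induction N using Nat.strong_induction_on with
  | _ N ih =>
    have hpd : ∀ e : ℕ, ∃ c : ℕ → ℚ, e ∈ N.properDivisors → ((∀ d, ¬ d ∣ e → c d = 0) ∧
        ∀ m : ℕ, m ≠ 0 →
          PowerSeries.coeff m (dvd_ld (cyclotomic e ℚ)) = ∑ d ∈ m.divisors, c d) := by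
      intro e
      by_cases he : e ∈ N.properDivisors
      · have he' := Nat.mem_properDivisors.mp he
        obtain ⟨c, hc⟩ := ih e he'.2 (Nat.pos_of_dvd_of_pos he'.1 hN)
        exact ⟨c, fun _ => hc⟩
      · exact ⟨fun _ => 0, fun h => absurd h he⟩
    choose c hc using hpd
    refine ⟨fun d => (if d = N then -(N : ℚ) else 0) - ∑ e ∈ N.properDivisors, c e d, ?_, ?_⟩
    · intro d hd
      have h1 : d ≠ N := by rintro rfl; exact hd dvd_rfl
      have h2 : ∑ e ∈ N.properDivisors, c e d = 0 := by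
        apply Finset.sum_eq_zero
        intro e he
        apply (hc e he).1
        intro hde
        exact hd (hde.trans (Nat.mem_properDivisors.mp he).1)
      simp only [h1, if_false, h2, sub_zero]
    · intro m hm
      have hprod := prod_cyclotomic_eq_X_pow_sub_one hN ℚ
      have hld := congrArg dvd_ld hprod
      rw [dvd_ld_finset_prod _ _ (fun i _ => dvd_cyclotomic_coeff_zero_ne i),
        dvd_ld_X_pow_sub_one hN, ← Nat.cons_self_properDivisors hN.ne', Finset.sum_cons] at hld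
      have e1 := congrArg (PowerSeries.coeff m) hld
      rw [map_add, map_sum, PowerSeries.coeff_mk] at e1
      have e2 : ∑ e ∈ N.properDivisors, PowerSeries.coeff m (dvd_ld (cyclotomic e ℚ)) =
          ∑ e ∈ N.properDivisors, ∑ d ∈ m.divisors, c e d :=
        Finset.sum_congr rfl (fun e he => (hc e he).2 m hm)
      rw [e2] at e1
      have e3 : PowerSeries.coeff m (dvd_ld (cyclotomic N ℚ)) =
          (if m ≠ 0 ∧ N ∣ m then -(N : ℚ) else 0) -
            ∑ e ∈ N.properDivisors, ∑ d ∈ m.divisors, c e d := by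
        rw [← e1]; ring
      rw [e3, Finset.sum_sub_distrib, Finset.sum_comm]
      congr 1
      rw [Finset.sum_ite_eq' m.divisors N (fun _ => -(N : ℚ))]
      have h1 : (m ≠ 0 ∧ N ∣ m) ↔ N ∈ m.divisors := by
        rw [Nat.mem_divisors]; exact and_comm
      by_cases h2 : N ∈ m.divisors
      · rw [if_pos (h1.mpr h2), if_pos h2]
      · rw [if_neg (fun h => h2 (h1.mp h)), if_neg h2]

theorem dvd_multiset_coeff (M : Multiset ℕ) (hM : ∀ N ∈ M, 0 < N) :
    ∃ c : ℕ → ℚ, (∀ d, (∀ N ∈ M, ¬ d ∣ N) → c d = 0) ∧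
      ∀ m : ℕ, m ≠ 0 →
        PowerSeries.coeff m (dvd_ld ((M.map (fun N => cyclotomic N ℚ)).prod)) =
          ∑ d ∈ m.divisors, c d := by
  induction M using Multiset.induction_on with
  | empty =>
    refine ⟨fun _ => 0, fun _ _ => rfl, ?_⟩
    intro m _
    rw [Multiset.map_zero, Multiset.prod_zero, dvd_ld_one, map_zero, Finset.sum_const_zero]
  | cons a s ih =>
    obtain ⟨c1, h1, h1'⟩ := ih (fun N hN => hM N (Multiset.mem_cons_of_mem hN))
    obtain ⟨c2, h2, h2'⟩ := dvd_cyclotomic_coeff a (hM a (Multiset.mem_cons_self _ _))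
    refine ⟨fun d => c2 d + c1 d, ?_, ?_⟩
    · intro d hd
      have e1 := h1 d (fun N hN => hd N (Multiset.mem_cons_of_mem hN))
      have e2 := h2 d (hd a (Multiset.mem_cons_self _ _))
      simp only [e1, e2, add_zero]
    · intro m hm
      rw [Multiset.map_cons, Multiset.prod_cons, dvd_ld_mul (dvd_cyclotomic_coeff_zero_ne a)
        (dvd_coeff_zero_multiset_prod s _ (fun i _ => dvd_cyclotomic_coeff_zero_ne i)),
        map_add, h1' m hm, h2' m hm, Finset.sum_add_distrib]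

theorem dvd_ld_neg {f : ℚ[X]} (hf : f.coeff 0 ≠ 0) : dvd_ld (-f) = dvd_ld f := by
  have h : -f = C (-1 : ℚ) * f := by simp
  rw [h, dvd_ld_mul (by simp) hf, dvd_ld_C (by norm_num), zero_add]

/-- Coefficients of the logarithmic derivative of a polynomial with a gap. -/
theorem dvd_gap {a : ℕ} (ha : 1 ≤ a) (P R : ℚ[X]) (hR : P = 1 + X ^ a + X ^ (a + 1) * R) :
    (∀ m, m < a → PowerSeries.coeff m (dvd_ld P) = 0) ∧
      PowerSeries.coeff a (dvd_ld P) = (a : ℚ) := by
  have h0 : P.coeff 0 = 1 := by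
    rw [hR, coeff_add, coeff_add, coeff_one_zero, coeff_X_pow, if_neg (by omega), mul_coeff_zero,
      coeff_X_pow, if_neg (by omega)]
    ring
  have h0' : P.coeff 0 ≠ 0 := by rw [h0]; exact one_ne_zero
  have hs := dvd_ld_mul_self h0'
  have hder : (X * derivative P : ℚ[X]) = X ^ a * (C (a : ℚ) +
      X * (C ((a : ℚ) + 1) * R + X * derivative R)) := by
    obtain ⟨k, rfl⟩ : ∃ k, a = k + 1 := ⟨a - 1, by omega⟩
    rw [hR]
    simp only [derivative_add, derivative_mul, derivative_X_pow, derivative_one, Nat.cast_add,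
      Nat.cast_one, Nat.add_sub_cancel]
    simp only [map_add, map_one, map_natCast]
    ring
  set L := dvd_ld P with hL
  have hinv : L = ((X : ℚ[X]) : PowerSeries ℚ) ^ a *
      (((C (a : ℚ) + X * (C ((a : ℚ) + 1) * R + X * derivative R) : ℚ[X]) : PowerSeries ℚ) *
        ((P : ℚ[X]) : PowerSeries ℚ)⁻¹) := by
    rw [hL]
    unfold dvd_ld
    rw [hder, coe_mul, coe_pow, mul_assoc]
  rw [coe_X] at hinv
  constructor
  · intro m hm
    rw [hinv, PowerSeries.coeff_X_pow_mul', if_neg (by omega)]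
  · rw [hinv, PowerSeries.coeff_X_pow_mul', if_pos le_rfl, Nat.sub_self,
      PowerSeries.coeff_zero_eq_constantCoeff_apply, map_mul, PowerSeries.constantCoeff_inv,
      ← PowerSeries.coeff_zero_eq_constantCoeff_apply,
      ← PowerSeries.coeff_zero_eq_constantCoeff_apply, coeff_coe, coeff_coe, h0]
    simp

theorem exists_dvd (M : Multiset ℕ) (hM : ∀ N ∈ M, 0 < N) (P : ℤ[X])
    (hP : P = (M.map (fun N => cyclotomic N ℤ)).prod ∨ P = -(M.map (fun N => cyclotomic N ℤ)).prod)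
    (a : ℕ) (ha : 1 ≤ a) (R : ℤ[X]) (hR : P = 1 + X ^ a + X ^ (a + 1) * R) :
    ∃ N ∈ M, a ∣ N := by
  obtain ⟨c, hc, hc'⟩ := dvd_multiset_coeff M hM
  set Q : ℚ[X] := (M.map (fun N => cyclotomic N ℚ)).prod with hQ
  have hQ0 : Q.coeff 0 ≠ 0 :=
    dvd_coeff_zero_multiset_prod M _ (fun i _ => dvd_cyclotomic_coeff_zero_ne i)
  have hmap : ((M.map (fun N => cyclotomic N ℤ)).prod).map (Int.castRingHom ℚ) = Q := by
    rw [hQ, Polynomial.map_multiset_prod, Multiset.map_map]
    congr 1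
    apply Multiset.map_congr rfl
    intro N _
    simp
  have hPQ : dvd_ld (P.map (Int.castRingHom ℚ)) = dvd_ld Q := by
    rcases hP with h | h
    · rw [h, hmap]
    · rw [h, Polynomial.map_neg, hmap, dvd_ld_neg hQ0]
  have hRQ : P.map (Int.castRingHom ℚ) =
      1 + X ^ a + X ^ (a + 1) * R.map (Int.castRingHom ℚ) := by
    rw [hR]
    simp
  obtain ⟨g1, g2⟩ := dvd_gap ha _ _ hRQ
  rw [hPQ] at g1 g2
  by_contra hcon
  have hca : c a = 0 := hc a (fun N hN h => hcon ⟨N, hN, h⟩)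
  have hz : ∀ m, m ≠ 0 → m ≤ a → c m = 0 := by
    intro m
    induction m using Nat.strong_induction_on with
    | _ m ih =>
      intro hm0 hma
      rcases Nat.lt_or_ge m a with hlt | hge
      · have e1 := g1 m hlt
        rw [hc' m hm0, ← Nat.cons_self_properDivisors hm0, Finset.sum_cons,
          Finset.sum_eq_zero, add_zero] at e1
        · exact e1
        · intro d hd
          rw [Nat.mem_properDivisors] at hd
          exact ih d hd.2 (Nat.pos_of_dvd_of_pos hd.1 (Nat.pos_of_ne_zero hm0)).ne' (by omega)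
      · have : m = a := le_antisymm hma hge
        rw [this]; exact hca
  have ha0 : a ≠ 0 := by omega
  have e2 := g2
  rw [hc' a ha0, Finset.sum_eq_zero] at e2
  · have : (a : ℚ) ≠ 0 := by exact_mod_cast ha0
    exact this e2.symm
  · intro d hd
    rw [Nat.mem_divisors] at hd
    exact hz d (Nat.pos_of_dvd_of_pos hd.1 (Nat.pos_of_ne_zero ha0)).ne'
      (Nat.le_of_dvd (Nat.pos_of_ne_zero ha0) hd.1)

end Pool.Agent.Helper62.OB
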