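import Mathlib
import Pool.Agent.Helper62.OB.Defs

/-!
# OB-BR: relations in the braid group

Here `w = m + 1`, `σ_i = sg m i`, `D = rn m 0 m = σ_{m-1} ⋯ σ_0`, `rn m a n = σ_{a+n-1} ⋯ σ_a`.
* `shift`: `σ_i D = D σ_{i+1}` for `i + 1 < m`: `D = (σ_{m-1} ⋯ σ_{i+2}) σ_{i+1} σ_i (σ_{i-1} ⋯ σ_0)`; move `σ_{i+1}` from the right end to the left through
  `σ_{i-1} ⋯ σ_0`, then `σ_{i+1} σ_i σ_{i+1} = σ_i σ_{i+1} σ_i`, then move `σ_i` to the left end.
* `wrap`: `D² σ_0 = σ_{m-1} D²` (`m ≥ 1`): with `E = σ_{m-1} ⋯ σ_1`, `D' = σ_{m-2} ⋯ σ_0`: `D = E σ_0 = σ_{m-1} D'`, and `D E = D' D` by `shift`; so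
  `σ_{m-1} D² = σ_{m-1} D D`, `D D = D E σ_0 = D' D σ_0`, `σ_{m-1} D' D σ_0 = D D σ_0`.
* `central`: `D^{m+1}` commutes with every `σ_i`: `D^{i+2} σ_i = D² σ_0 D^i = σ_{m-1} D^{i+2}` and `D^{m-1-i} σ_{m-1} = σ_i D^{m-1-i}`
  (both from `shift`); the `σ_i` generate (`PresentedGroup.closure_range_of`).
* `rn_shift`: `rn m a n * D^s = D^s * rn m (a + s) n` when `a + s + n ≤ m` (from `shift`).
* `pow_eq`: for `k ≤ v`: `D^k = (∏_{j < k}` in the order `j = k-1, ..., 0` of `rn m (v-1-j) (w-v)) * c^k`, `c = rn m 0 (v-1)`: induction on `k`: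
  `D = rn m (v-1) (w-v) * c`, `D^{k+1} = D^k * rn m (v-1) (w-v) * c = rn m (v-1-k) (w-v) * D^k * c` by `rn_shift`.  For `k = v`:
  `D^v = (∏_{k=0,...,v-1} rn m k (w-v)) * c^v` (increasing `k` from left to right).
  Now `w = v μ`, `rn m k (w-v) = R_{μ-2,k} ⋯ R_{0,k}` with `R_{i,k} = rn m (i v + k) v`, and `R_{i,k}` commutes with `R_{i',k'}` for `i < i'`, `k < k'`
  (all the indices of the generators differ by at least `2`), so the product may be taken in the order `∏_{i=μ-2,...,0} ∏_{k=0,...,v-1} R_{i,k} = blk_{μ-2} ⋯ blk_0`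
  (induction on `v`: `∏ (a_i b_i) = (∏ a_i) (∏ b_i)` when each `b_i` commutes with the later `a_{i'}`).  `bw n m μ = blk n m (μ-2) * ⋯ * blk n m 0`.
* `commF`, `commC`: `(D^v)^{-s} c^v (D^v)^s = (rn m (v s) (v-1))^v` by `rn_shift` for `s < μ` (`w = v μ`; `v s + v - 1 ≤ m`); runs in different blocks commute.
-/

set_option autoImplicit false

namespace Pool.Agent.Helper62.OB

theorem braidalg_sg_lt (m i : ℕ) (h : i < m) : sg m i = sigma ⟨i, h⟩ := by
  unfold sg
  rw [dif_pos h]

theorem braidalg_sg_ge (m i : ℕ) (h : ¬ i < m) : sg m i = 1 := by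
  unfold sg
  rw [dif_neg h]

theorem sg_comm (m i j : ℕ) (h : i + 2 ≤ j ∨ j + 2 ≤ i) : sg m i * sg m j = sg m j * sg m i := by
  by_cases hi : i < m
  · by_cases hj : j < m
    · rw [braidalg_sg_lt m i hi, braidalg_sg_lt m j hj]
      rcases h with h | h
      · exact artin_comm _ _ h
      · exact (artin_comm _ _ h).symm
    · rw [braidalg_sg_ge m j hj, mul_one, one_mul]
  · rw [braidalg_sg_ge m i hi, mul_one, one_mul]

theorem braidalg_sg_braid (m i : ℕ) (h : i + 1 < m) :
    sg m i * sg m (i + 1) * sg m i = sg m (i + 1) * sg m i * sg m (i + 1) := by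
  rw [braidalg_sg_lt m i (by omega), braidalg_sg_lt m (i + 1) h]
  exact artin_braid _ _ rfl

theorem braidalg_rn_zero (m a : ℕ) : rn m a 0 = 1 := rfl

theorem braidalg_rn_succ (m a n : ℕ) : rn m a (n + 1) = sg m (a + n) * rn m a n := rfl

theorem rn_add (m a n n' : ℕ) : rn m a (n + n') = rn m (a + n) n' * rn m a n := by
  induction n' with
  | zero => rw [add_zero, braidalg_rn_zero, one_mul]
  | succ k ih =>
    rw [← add_assoc, braidalg_rn_succ, ih, braidalg_rn_succ, mul_assoc, add_assoc]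

theorem braidalg_rn_one (m a : ℕ) : rn m a 1 = sg m a := by
  rw [show (1 : ℕ) = 0 + 1 from rfl, braidalg_rn_succ, braidalg_rn_zero, mul_one, add_zero]

theorem braidalg_comm_sg_rn (m j a n : ℕ) (h : j + 2 ≤ a ∨ a + n + 1 ≤ j) :
    Commute (sg m j) (rn m a n) := by
  induction n with
  | zero => rw [braidalg_rn_zero]; exact Commute.one_right _
  | succ k ih =>
    rw [braidalg_rn_succ]
    refine Commute.mul_right ?_ (ih (by omega))
    exact sg_comm m j (a + k) (by omega)

theorem braidalg_comm_rn_rn (m a n b n' : ℕ) (h : a + n + 1 ≤ b ∨ b + n' + 1 ≤ a) :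
    Commute (rn m a n) (rn m b n') := by
  induction n with
  | zero => rw [braidalg_rn_zero]; exact Commute.one_left _
  | succ k ih =>
    rw [braidalg_rn_succ]
    refine Commute.mul_left ?_ (ih (by omega))
    exact braidalg_comm_sg_rn m (a + k) b n' (by omega)

theorem shift (m i : ℕ) (h : i + 1 < m) : sg m i * rn m 0 m = rn m 0 m * sg m (i + 1) := by
  have e : rn m 0 m = rn m (i + 2) (m - (i + 2)) * (sg m (i + 1) * (sg m i * rn m 0 i)) := by
    have e1 : rn m 0 (i + 2) = sg m (i + 1) * (sg m i * rn m 0 i) := by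
      rw [show i + 2 = (i + 1) + 1 from rfl, braidalg_rn_succ, braidalg_rn_succ, zero_add, zero_add]
    rw [← e1]
    have e2 := rn_add m 0 (i + 2) (m - (i + 2))
    rw [zero_add, show i + 2 + (m - (i + 2)) = m by omega] at e2
    exact e2
  have c1 : sg m i * rn m (i + 2) (m - (i + 2)) = rn m (i + 2) (m - (i + 2)) * sg m i :=
    braidalg_comm_sg_rn m i (i + 2) (m - (i + 2)) (Or.inl le_rfl)
  have c2 : sg m (i + 1) * rn m 0 i = rn m 0 i * sg m (i + 1) :=
    braidalg_comm_sg_rn m (i + 1) 0 i (Or.inr (by omega))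
  have c3 := braidalg_sg_braid m i h
  rw [e]
  calc sg m i * (rn m (i + 2) (m - (i + 2)) * (sg m (i + 1) * (sg m i * rn m 0 i)))
      = (sg m i * rn m (i + 2) (m - (i + 2))) * (sg m (i + 1) * (sg m i * rn m 0 i)) := by
        rw [mul_assoc]
    _ = rn m (i + 2) (m - (i + 2)) * ((sg m i * sg m (i + 1) * sg m i) * rn m 0 i) := by
        rw [c1]; simp only [mul_assoc]
    _ = rn m (i + 2) (m - (i + 2)) * (sg m (i + 1) * sg m i * (sg m (i + 1) * rn m 0 i)) := by
        rw [c3]; simp only [mul_assoc]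
    _ = rn m (i + 2) (m - (i + 2)) * (sg m (i + 1) * (sg m i * rn m 0 i)) * sg m (i + 1) := by
        rw [c2]; simp only [mul_assoc]

theorem braidalg_rn_shift_one (m a n : ℕ) (h : a + 1 + n ≤ m) :
    rn m a n * rn m 0 m = rn m 0 m * rn m (a + 1) n := by
  induction n with
  | zero => rw [braidalg_rn_zero, braidalg_rn_zero, one_mul, mul_one]
  | succ k ih =>
    rw [braidalg_rn_succ, mul_assoc, ih (by omega), ← mul_assoc, shift m (a + k) (by omega),
      braidalg_rn_succ, mul_assoc, show a + k + 1 = a + 1 + k by omega]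

theorem rn_shift (m a n s : ℕ) (h : a + s + n ≤ m) :
    rn m a n * rn m 0 m ^ s = rn m 0 m ^ s * rn m (a + s) n := by
  induction s with
  | zero => rw [pow_zero, mul_one, one_mul, add_zero]
  | succ k ih =>
    rw [pow_succ, ← mul_assoc, ih (by omega), mul_assoc,
      braidalg_rn_shift_one m (a + k) n (by omega), mul_assoc, add_assoc]

theorem braidalg_sg_shift (m i s : ℕ) (h : i + s < m) :
    sg m i * rn m 0 m ^ s = rn m 0 m ^ s * sg m (i + s) := by
  have := rn_shift m i 1 s (by omega)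
  rwa [braidalg_rn_one, braidalg_rn_one] at this

theorem wrap (m : ℕ) (h : 1 ≤ m) : rn m 0 m ^ 2 * sg m 0 = sg m (m - 1) * rn m 0 m ^ 2 := by
  have e1 : rn m 0 m = rn m 1 (m - 1) * sg m 0 := by
    have := rn_add m 0 1 (m - 1)
    rwa [braidalg_rn_one, zero_add, show 1 + (m - 1) = m by omega] at this
  have e2 : rn m 0 m = sg m (m - 1) * rn m 0 (m - 1) := by
    have := braidalg_rn_succ m 0 (m - 1)
    rwa [show m - 1 + 1 = m by omega, zero_add] at this
  have e3 : rn m 0 (m - 1) * rn m 0 m = rn m 0 m * rn m 1 (m - 1) := by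
    have := braidalg_rn_shift_one m 0 (m - 1) (by omega)
    rwa [zero_add] at this
  calc rn m 0 m ^ 2 * sg m 0 = rn m 0 m * rn m 0 m * sg m 0 := by rw [pow_two]
    _ = (sg m (m - 1) * rn m 0 (m - 1)) * rn m 0 m * sg m 0 := by rw [← e2]
    _ = sg m (m - 1) * (rn m 0 (m - 1) * rn m 0 m) * sg m 0 := by simp only [mul_assoc]
    _ = sg m (m - 1) * (rn m 0 m * rn m 1 (m - 1)) * sg m 0 := by rw [e3]
    _ = sg m (m - 1) * (rn m 0 m * (rn m 1 (m - 1) * sg m 0)) := by simp only [mul_assoc]
    _ = sg m (m - 1) * rn m 0 m ^ 2 := by rw [← e1, pow_two]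

theorem braidalg_central_sg (m i : ℕ) (h : i < m) :
    rn m 0 m ^ (m + 1) * sg m i = sg m i * rn m 0 m ^ (m + 1) := by
  have h1 : sg m 0 * rn m 0 m ^ i = rn m 0 m ^ i * sg m i := by
    have := braidalg_sg_shift m 0 i (by omega)
    rwa [zero_add] at this
  have h2 : sg m i * rn m 0 m ^ (m - 1 - i) = rn m 0 m ^ (m - 1 - i) * sg m (m - 1) := by
    have := braidalg_sg_shift m i (m - 1 - i) (by omega)
    rwa [show i + (m - 1 - i) = m - 1 by omega] at this
  have h3 := wrap m (by omega)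
  have e : rn m 0 m ^ (m + 1) = rn m 0 m ^ (m - 1 - i) * (rn m 0 m ^ 2 * rn m 0 m ^ i) := by
    rw [← pow_add, ← pow_add]
    congr 1
    omega
  rw [e]
  calc rn m 0 m ^ (m - 1 - i) * (rn m 0 m ^ 2 * rn m 0 m ^ i) * sg m i
      = rn m 0 m ^ (m - 1 - i) * (rn m 0 m ^ 2 * (rn m 0 m ^ i * sg m i)) := by
        simp only [mul_assoc]
    _ = rn m 0 m ^ (m - 1 - i) * ((rn m 0 m ^ 2 * sg m 0) * rn m 0 m ^ i) := by
        rw [← h1]; simp only [mul_assoc]
    _ = (rn m 0 m ^ (m - 1 - i) * sg m (m - 1)) * (rn m 0 m ^ 2 * rn m 0 m ^ i) := by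
        rw [h3]; simp only [mul_assoc]
    _ = sg m i * (rn m 0 m ^ (m - 1 - i) * (rn m 0 m ^ 2 * rn m 0 m ^ i)) := by
        rw [← h2]; simp only [mul_assoc]

theorem central (m : ℕ) (x : BraidGroup m) : rn m 0 m ^ (m + 1) * x = x * rn m 0 m ^ (m + 1) := by
  have hx : x ∈ Subgroup.closure (Set.range (PresentedGroup.of : Fin m → BraidGroup m)) := by
    rw [PresentedGroup.closure_range_of]
    exact Subgroup.mem_top x
  have key : Commute (rn m 0 m ^ (m + 1)) x := by
    induction hx using Subgroup.closure_induction with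
    | mem y hy =>
      obtain ⟨i, rfl⟩ := hy
      have := braidalg_central_sg m i.val i.isLt
      rw [braidalg_sg_lt m i.val i.isLt] at this
      exact this
    | one => exact Commute.one_right _
    | mul y z _ _ hy hz => exact hy.mul_right hz
    | inv y _ hy => exact hy.inv_right
  exact key

/-- the product `blk (k-1) * ... * blk 0` -/
def bw (n M : ℕ) : ℕ → BraidGroup M
  | 0 => 1
  | k + 1 => blk n M k * bw n M k

theorem braidalg_pow_aux (m v : ℕ) (hv : 1 ≤ v) (hw : v ≤ m + 1) (k : ℕ) (hk : k ≤ v) :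
    rn m 0 m ^ k = ((List.range k).map fun j => rn m (v - k + j) (m + 1 - v)).prod *
      rn m 0 (v - 1) ^ k := by
  induction k with
  | zero => simp
  | succ k ih =>
    have e1 : rn m 0 m = rn m (v - 1) (m + 1 - v) * rn m 0 (v - 1) := by
      have := rn_add m 0 (v - 1) (m + 1 - v)
      rwa [zero_add, show v - 1 + (m + 1 - v) = m by omega] at this
    have e2 : rn m (v - 1 - k) (m + 1 - v) * rn m 0 m ^ k =
        rn m 0 m ^ k * rn m (v - 1) (m + 1 - v) := by
      have := rn_shift m (v - 1 - k) (m + 1 - v) k (by omega)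
      rwa [show v - 1 - k + k = v - 1 by omega] at this
    have e3 : ((List.range (k + 1)).map fun j => rn m (v - (k + 1) + j) (m + 1 - v)).prod =
        rn m (v - 1 - k) (m + 1 - v) *
          ((List.range k).map fun j => rn m (v - k + j) (m + 1 - v)).prod := by
      rw [List.range_succ_eq_map, List.map_cons, List.prod_cons, List.map_map]
      congr 1
      · rw [add_zero, show v - (k + 1) = v - 1 - k by omega]
      · congr 1
        apply List.map_congr_left
        intro j _
        show rn m (v - (k + 1) + (j + 1)) (m + 1 - v) = _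
        rw [show v - (k + 1) + (j + 1) = v - k + j by omega]
    calc rn m 0 m ^ (k + 1) = rn m 0 m ^ k * rn m 0 m := pow_succ _ _
      _ = rn m 0 m ^ k * (rn m (v - 1) (m + 1 - v) * rn m 0 (v - 1)) := by rw [← e1]
      _ = (rn m 0 m ^ k * rn m (v - 1) (m + 1 - v)) * rn m 0 (v - 1) := by rw [mul_assoc]
      _ = rn m (v - 1 - k) (m + 1 - v) * rn m 0 m ^ k * rn m 0 (v - 1) := by rw [← e2]
      _ = rn m (v - 1 - k) (m + 1 - v) *
          (((List.range k).map fun j => rn m (v - k + j) (m + 1 - v)).prod *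
            rn m 0 (v - 1) ^ k) * rn m 0 (v - 1) := by rw [← ih (by omega)]
      _ = _ := by rw [e3, pow_succ]; simp only [mul_assoc]

theorem braidalg_prod_mul {G : Type*} [Group G] (a b : ℕ → G) (n : ℕ)
    (h : ∀ k k', k < k' → k' < n → Commute (b k) (a k')) :
    ((List.range n).map fun k => a k * b k).prod =
      ((List.range n).map a).prod * ((List.range n).map b).prod := by
  induction n with
  | zero => simp
  | succ n ih =>
    have ih' := ih (fun k k' h1 h2 => h k k' h1 (by omega))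
    have hc : Commute ((List.range n).map b).prod (a n) := by
      apply Commute.list_prod_left
      intro x hx
      rw [List.mem_map] at hx
      obtain ⟨k, hk, rfl⟩ := hx
      exact h k n (List.mem_range.mp hk) (Nat.lt_succ_self n)
    rw [List.range_succ, List.map_append, List.prod_append, List.map_append, List.prod_append,
      List.map_append, List.prod_append, ih']
    simp only [List.map_cons, List.map_nil, List.prod_cons, List.prod_nil, mul_one]
    calc ((List.range n).map a).prod * ((List.range n).map b).prod * (a n * b n)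
        = ((List.range n).map a).prod * (((List.range n).map b).prod * a n) * b n := by
          simp only [mul_assoc]
      _ = ((List.range n).map a).prod * (a n * ((List.range n).map b).prod) * b n := by
          rw [hc.eq]
      _ = _ := by simp only [mul_assoc]

theorem braidalg_bw (m v q : ℕ) :
    bw v m q = ((List.range v).map fun k => rn m k (v * q)).prod := by
  induction q with
  | zero =>
    rw [mul_zero]
    simp [bw, braidalg_rn_zero]
  | succ q ih =>
    have e1 : ((List.range v).map fun k => rn m k (v * (q + 1))).prod =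
        ((List.range v).map fun k => rn m (q * v + k) v * rn m k (v * q)).prod := by
      congr 1
      apply List.map_congr_left
      intro k _
      rw [mul_add, mul_one, rn_add, show k + v * q = q * v + k by ring]
    rw [e1, braidalg_prod_mul]
    · rw [← ih]
      rfl
    · intro k k' h1 _
      apply braidalg_comm_rn_rn
      left
      have : v * q = q * v := mul_comm _ _
      omega

theorem pow_eq (m v μ : ℕ) (hv : 1 ≤ v) (hμ : 1 ≤ μ) (hw : m + 1 = v * μ) :
    rn m 0 m ^ v = bw v m (μ - 1) * rn m 0 (v - 1) ^ v := by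
  have h1 : v ≤ m + 1 := by
    rw [hw]
    exact Nat.le_mul_of_pos_right v hμ
  rw [braidalg_pow_aux m v hv h1 v le_rfl, braidalg_bw]
  congr 2
  apply List.map_congr_left
  intro k _
  rw [Nat.sub_self, zero_add, Nat.mul_sub, mul_one, hw]

theorem braidalg_conj (m v μ : ℕ) (hv : 1 ≤ v) (hw : m + 1 = v * μ) (s : ℕ) (hs : s < μ) :
    ((rn m 0 m ^ v) ^ s)⁻¹ * rn m 0 (v - 1) ^ v * (rn m 0 m ^ v) ^ s =
      rn m (v * s) (v - 1) ^ v := by
  have h0 : v * s + v ≤ m + 1 := by
    rw [hw, ← Nat.mul_succ]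
    exact Nat.mul_le_mul_left v hs
  have h1 := rn_shift m 0 (v - 1) (v * s) (by omega)
  rw [zero_add, pow_mul] at h1
  have h2 : ((rn m 0 m ^ v) ^ s)⁻¹ * rn m 0 (v - 1) * (rn m 0 m ^ v) ^ s =
      rn m (v * s) (v - 1) := by
    rw [mul_assoc, h1, ← mul_assoc, inv_mul_cancel, one_mul]
  rw [← h2]
  have h3 := conj_pow (i := v) (a := ((rn m 0 m ^ v) ^ s)⁻¹) (b := rn m 0 (v - 1))
  rw [inv_inv] at h3
  exact h3.symm

theorem commF (m v μ : ℕ) (hv : 1 ≤ v) (hw : m + 1 = v * μ) (s s' : ℕ) (hs : s < μ) (hs' : s' < μ) :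
    Commute (((rn m 0 m ^ v) ^ s)⁻¹ * rn m 0 (v - 1) ^ v * (rn m 0 m ^ v) ^ s)
      (((rn m 0 m ^ v) ^ s')⁻¹ * rn m 0 (v - 1) ^ v * (rn m 0 m ^ v) ^ s') := by
  rw [braidalg_conj m v μ hv hw s hs, braidalg_conj m v μ hv hw s' hs']
  apply Commute.pow_pow
  rcases lt_trichotomy s s' with h | h | h
  · apply braidalg_comm_rn_rn
    left
    have : v * (s + 1) ≤ v * s' := Nat.mul_le_mul_left v h
    rw [Nat.mul_add, mul_one] at this
    omega
  · subst h
    exact Commute.refl _
  · apply braidalg_comm_rn_rn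
    right
    have : v * (s' + 1) ≤ v * s := Nat.mul_le_mul_left v h
    rw [Nat.mul_add, mul_one] at this
    omega

theorem commC (m v μ : ℕ) (hv : 1 ≤ v) (hw : m + 1 = v * μ) (s : ℕ) (hs : s < μ) :
    Commute (rn m 0 (v - 1)) (((rn m 0 m ^ v) ^ s)⁻¹ * rn m 0 (v - 1) ^ v * (rn m 0 m ^ v) ^ s) := by
  rw [braidalg_conj m v μ hv hw s hs]
  apply Commute.pow_right
  rcases Nat.eq_zero_or_pos s with h | h
  · subst h
    rw [mul_zero]
  · apply braidalg_comm_rn_rn
    left
    have : v * 1 ≤ v * s := Nat.mul_le_mul_left v h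
    rw [mul_one] at this
    omega

end Pool.Agent.Helper62.OB
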