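import Mathlib
import Pool.Agent.Helper62.OB.Defs

/-!
# OB-OR: the orbit of the first strand

`C_r` = the map of `{0, ..., m}` with `C_r x = x + 1` for `x < r`, `C_r r = 0`, `C_r x = x` for `x > r`.
* `permHom_rn`: by induction on `r`, `permHom m (rn m 0 r) (C_r x) = x` (note `rn m 0 (r + 1) = sg m r * rn m 0 r`, and
  `permHom` is a homomorphism, so `rn m 0 (r + 1)` first applies the permutation of `rn m 0 r` and then the transposition `(r, r + 1)`).
* Hence `π = permHom m (oneBridge m b t)` satisfies `π ((C_b x + t) % (m + 1)) = x` (`C_m x = (x + 1) % (m + 1)`; `oneBridge = rn m 0 b * rn m 0 m ^ t`: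
  `π y = P_b (P_m^t y)`, `P_m^t ((z + t) % w) = z`, `P_b (C_b x) = x`).  So `xs 0 = t % w = π⁻¹ b` (`C_b b = 0`) and `xs (k + 1) = π⁻¹ (xs k)`, i.e. `xs k = π^{-(k+1)} b`.
* If all pairs are in the same cycle of `π`, the orbit of `b` under `π⁻¹` has exactly `w` elements: the values `xs 0, ..., xs (w - 1)` are
  distinct and `xs (w - 1) = π^{-w} b = b` (e.g. `Equiv.Perm.IsCycle`/`orderOf`, or by hand: the minimal `n > 0` with `π^n b = b` is `w` because the
  `π^k b`, `k < n`, are all the points).  (For `m = 0` everything is `Subsingleton`.)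
-/

set_option autoImplicit false

namespace Pool.Agent.Helper62.OB

theorem orbit_perm_sigma {m : ℕ} (i : Fin m) :
    permHom m (sigma i) = Equiv.swap i.castSucc i.succ := by
  unfold permHom
  rw [braidLift_sigma]

theorem permHom_rn (m r : ℕ) (hr : r ≤ m) (x y : Fin (m + 1))
    (h : y.val = if x.val < r then x.val + 1 else if x.val = r then 0 else x.val) :
    permHom m (rn m 0 r) y = x := by
  induction r generalizing x y with
  | zero =>
    rw [rn, map_one, Equiv.Perm.one_apply]
    apply Fin.ext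
    rw [h]
    split_ifs <;> omega
  | succ r ih =>
    have hr' : r < m := by omega
    have e : rn m 0 (r + 1) = sigma ⟨r, hr'⟩ * rn m 0 r := by
      rw [rn, zero_add, sg, dif_pos hr']
    rw [e, map_mul, orbit_perm_sigma, Equiv.Perm.mul_apply]
    have hx : permHom m (rn m 0 r) y =
        Equiv.swap (⟨r, hr'⟩ : Fin m).castSucc (⟨r, hr'⟩ : Fin m).succ x := by
      apply ih (by omega)
      have e1 : ((⟨r, hr'⟩ : Fin m).castSucc).val = r := rfl
      have e2 : ((⟨r, hr'⟩ : Fin m).succ).val = r + 1 := rfl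
      rw [h]
      rw [Equiv.swap_apply_def]
      by_cases h1 : x = (⟨r, hr'⟩ : Fin m).castSucc
      · rw [if_pos h1, h1, e1, e2]
        split_ifs <;> omega
      · rw [if_neg h1]
        have h1' : x.val ≠ r := fun h' => h1 (Fin.ext h')
        by_cases h2 : x = (⟨r, hr'⟩ : Fin m).succ
        · rw [if_pos h2, h2, e1, e2]
          split_ifs <;> omega
        · rw [if_neg h2]
          have h2' : x.val ≠ r + 1 := fun h' => h2 (Fin.ext h')
          split_ifs <;> omega
    rw [hx, Equiv.swap_apply_self]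

theorem orbit_pow (m t : ℕ) (z y : Fin (m + 1)) (h : y.val = (z.val + t) % (m + 1)) :
    (permHom m (rn m 0 m) ^ t) y = z := by
  induction t generalizing y with
  | zero =>
    rw [pow_zero, Equiv.Perm.one_apply]
    apply Fin.ext
    rw [h, add_zero, Nat.mod_eq_of_lt z.isLt]
  | succ t ih =>
    rw [pow_succ, Equiv.Perm.mul_apply]
    have hlt : (z.val + t) % (m + 1) < m + 1 := Nat.mod_lt _ (by omega)
    have h1 : permHom m (rn m 0 m) y = ⟨(z.val + t) % (m + 1), hlt⟩ := by
      apply permHom_rn m m le_rfl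
      change y.val = if (z.val + t) % (m + 1) < m then (z.val + t) % (m + 1) + 1
        else if (z.val + t) % (m + 1) = m then 0 else (z.val + t) % (m + 1)
      rw [h, ← add_assoc, Nat.add_mod (z.val + t) 1 (m + 1)]
      generalize hq : (z.val + t) % (m + 1) = q at hlt ⊢
      by_cases hm : m = 0
      · subst hm
        have : q = 0 := by omega
        subst this
        simp
      · have h1m : 1 % (m + 1) = 1 := Nat.mod_eq_of_lt (by omega)
        rw [h1m]
        by_cases hqm : q < m
        · rw [if_pos hqm, Nat.mod_eq_of_lt (by omega)]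
        · have : q = m := by omega
          subst this
          rw [if_neg (lt_irrefl _), if_pos rfl, Nat.mod_self]
    rw [h1]
    exact ih _ rfl

theorem orbit_xs_lt (m b t k : ℕ) : xs (m + 1) b t k < m + 1 := by
  cases k with
  | zero => exact Nat.mod_lt _ (by omega)
  | succ k => exact Nat.mod_lt _ (by omega)

theorem orbit_step (m b t : ℕ) (hb : b ≤ m) (x y : Fin (m + 1))
    (h : y.val = ((if x.val < b then x.val + 1 else if x.val = b then 0 else x.val) + t) %
      (m + 1)) :
    permHom m (oneBridge m b t) y = x := by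
  rw [oneBridge, map_mul, map_pow, Equiv.Perm.mul_apply]
  have hc : (if x.val < b then x.val + 1 else if x.val = b then 0 else x.val) < m + 1 := by
    have := x.isLt
    split_ifs <;> omega
  rw [orbit_pow m t ⟨_, hc⟩ y h]
  exact permHom_rn m b hb x _ rfl

theorem orb_of_knot (m b t : ℕ) (hb : b ≤ m) (h : IsKnot (oneBridge m b t)) :
    Orb (m + 1) b t := by
  set π := permHom m (oneBridge m b t) with hπ
  have hbw : b < m + 1 := by omega
  have hX : ∀ k, (π ^ (k + 1)) ⟨xs (m + 1) b t k, orbit_xs_lt m b t k⟩ = ⟨b, hbw⟩ := by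
    intro k
    induction k with
    | zero =>
      rw [zero_add, pow_one]
      apply orbit_step m b t hb
      change t % (m + 1) = _
      rw [if_neg (lt_irrefl _), if_pos rfl, zero_add]
    | succ k ih =>
      rw [pow_succ, Equiv.Perm.mul_apply]
      have : π ⟨xs (m + 1) b t (k + 1), orbit_xs_lt m b t (k + 1)⟩ =
          ⟨xs (m + 1) b t k, orbit_xs_lt m b t k⟩ := by
        apply orbit_step m b t hb
        rfl
      rw [this, ih]
  have hcyc : (π⁻¹).IsCycleOn ((Finset.univ : Finset (Fin (m + 1))) : Set (Fin (m + 1))) := by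
    refine ⟨?_, ?_⟩
    · rw [Finset.coe_univ]
      exact Set.bijOn_univ.2 (Equiv.bijective _)
    · intro i _ j _
      exact (Equiv.Perm.sameCycle_inv).2 (h i j)
  have hX' : ∀ k, ((π⁻¹) ^ (k + 1)) ⟨b, hbw⟩ = ⟨xs (m + 1) b t k, orbit_xs_lt m b t k⟩ := by
    intro k
    rw [inv_pow, Equiv.Perm.inv_eq_iff_eq]
    exact (hX k).symm
  have hcard : (Finset.univ : Finset (Fin (m + 1))).card = m + 1 := by simp
  constructor
  · intro i hi j hj hij
    have h1 : ((π⁻¹) ^ (i + 1)) ⟨b, hbw⟩ = ((π⁻¹) ^ (j + 1)) ⟨b, hbw⟩ := by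
      rw [hX', hX']
      exact Fin.ext hij
    have h2 := (hcyc.pow_apply_eq_pow_apply (Finset.mem_univ _)).1 h1
    rw [hcard] at h2
    have h3 : i ≡ j [MOD (m + 1)] := Nat.ModEq.add_right_cancel' 1 h2
    exact Nat.ModEq.eq_of_lt_of_lt h3 hi hj
  · have h1 := hX' m
    have h2 : ((π⁻¹) ^ (m + 1)) ⟨b, hbw⟩ = ⟨b, hbw⟩ := by
      refine (hcyc.pow_apply_eq (Finset.mem_univ _)).2 ?_
      rw [hcard]
    rw [h2] at h1
    have h3 := congrArg Fin.val h1
    rw [Nat.add_sub_cancel]
    exact h3.symm

end Pool.Agent.Helper62.OB
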